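import Pool.Agent.V7H5.PF.Pr

/-!
# Limits of the ranks of intersection forms
-/

open CategoryTheory AlgebraicGeometry

universe u v

namespace Pool.Agent.V7H5.PF

open Module Filter Topology
open Pool.Agent.H914 Pool.Agent.H914.VarClass Pool.Agent.H914.VarClass.Obj
  Pool.Agent.H914.WeilCohomology Pool.Agent.Y133.Half
open Mo

variable {k : Type u} [Field k] {𝒱 : VarClass k} {ops : CycleOps 𝒱}
  {W : WeilCohomology.{u, v} ops} {X Y Y' Z P Q R V : 𝒱.Obj} {S : Sys W}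

section

variable {l : W.H (pw X 1)} {hl : l ∈ S.C (pw X 1)} {hl1 : W.tr (pw X 1) (l * 1) = 1}

theorem isPF {lX : W.H X} (hlX : lX ∈ S.C X) (hlX1 : W.tr X lX = 1) : IsPF (dat S hl hl1) where
  sum_cpl t := SumR.cpl t.toMo
  sum_mul y h := SumR.mul y.toMo h
  iso_mul y h := TIso.mul y.toMo h
  comm s t := (VIso.comm s.toMo t.toMo).tiso
  assoc s t u := (VIso.assoc s.toMo t.toMo u.toMo).tiso
  mul_one t := mul_un (hc := S.one _) (hd := hl) (h := hl1) t.toMo
  cone n :=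
    { nonneg := fun t => Nat.cast_nonneg _
      sum := fun t a b h => by
        have h1 : cc X n t.toMo = cc X n a.toMo + cc X n b.toMo := cc_sum n h
        exact_mod_cast h1
      iso := fun t s h => by
        have h1 : cc X n t.toMo = cc X n s.toMo := cc_iso n h
        exact_mod_cast h1 }
  shift n t s := by
    obtain ⟨θ⟩ := t.iso
    exact cc_shift n θ s.toMo
  copies t ψ hψ := copies_aux hψ _
    ((dat S hl hl1).mul t ((dat S hl hl1).top (dat S hl hl1).base)) le_rfl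
  pos n := by
    have h1 : cc X n (un (S.one _) hl hl1) = S.al X n := cc_un n _ _ _
    change 0 < cc X n (un (S.one _) hl hl1)
    rw [h1]
    obtain ⟨m, hm, hm1⟩ := S.exists_lam hlX hlX1 n
    refine S.a_pos (Sys.xp_mem_C S hm hm) ?_
    rw [tr_xp, hm1, mul_one]
  dg_one := rfl
  dg_pos t := Nat.le_add_left _ _
  convex n y := cc_convex n y.toMo
  convex_one n := by
    change cc X (n + 1) (un (S.one _) hl hl1) ^ 2 ≤ cc X (n + 2) (un (S.one _) hl hl1) *
      cc X n (un (S.one _) hl hl1)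
    rw [cc_un, cc_un, cc_un]
    exact S.al_convex X n
  bound := by
    refine ⟨(finrank W.K (W.H X) : ℝ) ^ 2, fun n => ?_⟩
    change (cc X (n + 1) (un (S.one _) hl hl1) : ℝ) ≤ _ * (cc X n (un (S.one _) hl hl1) : ℝ)
    rw [cc_un, cc_un]
    exact_mod_cast S.al_succ_le X n
  pol := by
    have h1 : ∀ n, (dat S hl hl1).c n (dat S hl hl1).one = S.al X n :=
      fun n => cc_un n (S.one _) hl hl1
    by_cases hp : ∀ n, S.al X n ≤ 1
    · right
      intro n
      rw [h1]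
      exact hp n
    · left
      push Not at hp
      obtain ⟨n₀, hn₀⟩ := hp
      intro s
      obtain ⟨θ⟩ := s.iso
      obtain ⟨m, hm, hm1⟩ := exists_tr hlX hlX1 θ
      obtain ⟨G, hG, hGG, key⟩ := pol_aux (X := X) s.mem s.idem hm hm1
        (Q := (pw X n₀).prod (pw X n₀)) hn₀
      refine ⟨{ P := s.P.prod ((pw X n₀).prod (pw X n₀)), g := G, mem := hG, idem := hGG,
                k := s.k + n₀ + 1, iso := ⟨prodCongr θ (pwAdd X n₀ n₀) ≪≫
                  pwAdd X (2 * s.k + 1) (n₀ + n₀ + 1) ≪≫ eqToIso (congrArg (pw X)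
                  (show 2 * s.k + 1 + (n₀ + n₀ + 1) + 1 = 2 * (s.k + n₀ + 1) + 1 by ring))⟩ },
        fun n => ?_⟩
      rw [h1]
      exact key n
  triv y h n := cc_nop n h
  dich y := by
    rcases nop_or y.toMo with h | h
    · exact Or.inl h
    · right
      intro ψ hψ
      have h1 := copies_aux hψ 1 ((dat S hl hl1).mul ((dat S hl hl1).dual y) y) h
      rwa [Nat.cast_one, one_mul] at h1
  dual n t := cc_dual n t.toMo

end

lemma nop_miso {t s : Mo S} (h : MIso t s) (ht : t.g ∈ S.NOp t.P t.P) : s.g ∈ S.NOp s.P s.P := by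
  obtain ⟨u, hu, v, hv, h1, h2⟩ := h
  have h3 : s.g = u ∘ₗ t.g ∘ₗ v := by
    rw [← h1]
    calc s.g = s.g ∘ₗ s.g := s.idem.symm
      _ = (u ∘ₗ v) ∘ₗ (u ∘ₗ v) := by rw [h2]
      _ = _ := by simp only [LinearMap.comp_assoc]
  rw [h3]
  exact Sys.NOp.comp_left hu (Sys.NOp.comp_right ht hv)

lemma tendsto_parity {F : ℕ → ℝ} {L : ℝ} (h1 : Tendsto (fun j => F (2 * j + 1)) atTop (𝓝 L))
    (h2 : Tendsto (fun j => F (2 * j + 2)) atTop (𝓝 L)) : Tendsto F atTop (𝓝 L) := by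
  rw [Metric.tendsto_atTop] at h1 h2 ⊢
  intro ε hε
  obtain ⟨N₁, hN₁⟩ := h1 ε hε
  obtain ⟨N₂, hN₂⟩ := h2 ε hε
  refine ⟨2 * (N₁ + N₂) + 2, fun n hn => ?_⟩
  rcases Nat.even_or_odd' n with ⟨j, rfl | rfl⟩
  · obtain ⟨i, rfl⟩ : ∃ i, j = i + 1 := ⟨j - 1, by omega⟩
    exact hN₂ i (by omega)
  · exact hN₁ j (by omega)

/-- **Limits of the ranks.** -/
theorem exists_limit (S : Sys W) {lX : W.H X} (hlX : lX ∈ S.C X) (hlX1 : W.tr X lX = 1) (m : ℕ)
    {g : Module.End W.K (W.H (pw X m))} (hg : g ∈ S.Op (pw X m) (pw X m)) (hgg : g ∘ₗ g = g) :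
    ∃ D : ℝ, Tendsto (fun n => (S.r (pw X m) g (pw X n) : ℝ) / S.a (pw X n)) atTop (𝓝 D) ∧
      (g ∈ S.NOp (pw X m) (pw X m) ∨ 1 ≤ D) := by
  obtain ⟨l, hl, hl0⟩ := S.exists_lam hlX hlX1 1
  have hl1 : W.tr (pw X 1) (l * 1) = 1 := by rw [mul_one, hl0]
  have hPF := isPF (hl := hl) (hl1 := hl1) hlX hlX1
  obtain ⟨R, hR, ψ, hψ, hlim, hmul, hdich⟩ := hPF.main
  have hone : ∀ n, (dat S hl hl1).c n (dat S hl hl1).one = S.al X n :=
    fun n => cc_un n (S.one _) hl hl1
  have hpos : ∀ n, (0 : ℝ) < S.al X n := by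
    intro n
    have h1 := hPF.pos n
    rw [hone] at h1
    exact_mod_cast h1
  obtain ⟨mm, hm, hm1⟩ := S.exists_lam hlX hlX1 m
  have hm2 : W.tr (pw X m) (mm * 1) = 1 := by rw [mul_one, hm1]
  have hX2 : W.tr X (lX * 1) = 1 := by rw [mul_one, hlX1]
  let s : Mo S := ⟨pw X m, g, hg, hgg⟩
  let xx : Mo S := ⟨X, 1, Sys.Op.id, rfl⟩
  let E : Mo S := un (S.one _) hm hm2
  let EX : Mo S := un (S.one _) hlX hX2
  let t : Pr S X :=
    { E.mul s with
      k := m
      iso := ⟨pwAdd X m m ≪≫ eqToIso (congrArg (pw X) (show m + m + 1 = 2 * m + 1 by ring))⟩ }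
  let x : Pr S X := { EX.mul xx with k := 0, iso := ⟨Iso.refl _⟩ }
  have it : TIso t.toMo s := un_mul s
  have ix : TIso x.toMo xx := un_mul xx
  -- the value at `x`
  have hx : 1 ≤ ψ x := by
    have h1 : 1 ≤ x.toMo.rho := by
      rw [ix.1.rho_eq]
      exact S.a_pos hlX hlX1
    have h2 := copies_aux (hl := hl) (hl1 := hl1) (KK.cone hψ) 1 x h1
    rwa [Nat.cast_one, one_mul, hψ.2.2.2.1] at h2
  have c1 : ∀ j, cc X j t.toMo = S.r (pw X m) g ((pw X j).prod (pw X j)) := fun j => cc_iso j it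
  have c2 : ∀ j, cc X j ((dat S hl hl1).mul t x).toMo =
      S.r (pw X m) g (X.prod ((pw X j).prod (pw X j))) := fun j => by
    have h1 : cc X j ((dat S hl hl1).mul t x).toMo = cc X j (s.mul xx) :=
      cc_iso j (it.mul2 ix)
    rw [h1]
    exact S.r_assoc g
  have c3 : ∀ j, cc X j x.toMo = S.a (X.prod ((pw X j).prod (pw X j))) := fun j => by
    have h1 : cc X j x.toMo = cc X j xx := cc_iso j ix
    rw [h1]
    exact S.r_one
  have θ : ∀ j, pw X (2 * j + 1) ≅ (pw X j).prod (pw X j) := fun j =>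
    eqToIso (congrArg (pw X) (show 2 * j + 1 = j + j + 1 by ring)) ≪≫ (pwAdd X j j).symm
  have θ' : ∀ j, pw X (2 * j + 2) ≅ X.prod ((pw X j).prod (pw X j)) := fun j =>
    prodComm (pw X (2 * j + 1)) X ≪≫ prodCongr (Iso.refl X) (θ j)
  refine ⟨ψ t, tendsto_parity ?_ ?_, ?_⟩
  · refine (hlim t).congr fun j => ?_
    have h1 : S.r (pw X m) g (pw X (2 * j + 1)) = cc X j t.toMo := by
      rw [c1]
      exact S.r_iso g (θ j)
    have h2 : S.a (pw X (2 * j + 1)) = S.al X j := S.a_iso (θ j)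
    rw [h1, h2, hone]
    rfl
  · have h3 := ((hlim ((dat S hl hl1).mul t x)).div (hlim x) (by linarith))
    rw [hmul, mul_div_assoc, div_self (by linarith), mul_one] at h3
    refine h3.congr fun j => ?_
    have h1 : S.r (pw X m) g (pw X (2 * j + 2)) = cc X j ((dat S hl hl1).mul t x).toMo := by
      rw [c2]
      exact S.r_iso g (θ' j)
    have h2 : S.a (pw X (2 * j + 2)) = cc X j x.toMo := by
      rw [c3]
      exact S.a_iso (θ' j)
    have h4 := hpos j
    rw [h1, h2]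
    simp only [Pi.div_apply]
    rw [hone, div_div_div_cancel_right₀ h4.ne']
    rfl
  · rcases hdich t with h | h
    · exact Or.inl (nop_miso it.1 h)
    · exact Or.inr h

end Pool.Agent.V7H5.PF
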