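import Mathlib

/-!
# The Perron-Frobenius character of a commutative semisimple tensor category
-/

namespace Pool.Agent.V7H5.PF

open Filter Topology

/-- The data of a commutative semiring of objects, with counting functions. -/
structure Dat (T : Type*) where
  /-- product -/
  mul : T → T → T
  /-- the ambient object -/
  top : T → T
  /-- the complement -/
  cpl : T → T
  /-- the dual -/
  dual : T → T
  /-- the unit -/
  one : T
  /-- a test object -/
  base : T
  /-- degree of the ambient object -/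
  dg : T → ℕ
  /-- isomorphism -/
  Iso : T → T → Prop
  /-- direct sum -/
  Sum : T → T → T → Prop
  /-- multiplicities -/
  c : ℕ → T → ℕ
  /-- trivial objects -/
  Triv : T → Prop

variable {T : Type*}

/-- Non-negative additive invariants. -/
structure Cone (D : Dat T) (ψ : T → ℝ) : Prop where
  nonneg : ∀ t, 0 ≤ ψ t
  sum : ∀ t a b, D.Sum t a b → ψ t = ψ a + ψ b
  iso : ∀ t s, D.Iso t s → ψ t = ψ s

/-- The axioms. -/
structure IsPF (D : Dat T) : Prop where
  sum_cpl : ∀ t, D.Sum (D.top t) t (D.cpl t)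
  sum_mul : ∀ {t a b : T} (y : T), D.Sum t a b → D.Sum (D.mul y t) (D.mul y a) (D.mul y b)
  iso_mul : ∀ {t s : T} (y : T), D.Iso t s → D.Iso (D.mul y t) (D.mul y s)
  comm : ∀ s t, D.Iso (D.mul s t) (D.mul t s)
  assoc : ∀ s t u, D.Iso (D.mul (D.mul s t) u) (D.mul s (D.mul t u))
  mul_one : ∀ t, D.Iso (D.mul t D.one) t
  cone : ∀ n, Cone D (fun t => (D.c n t : ℝ))
  shift : ∀ n t s, D.c n (D.mul (D.top t) s) = D.c (n + D.dg t) s
  copies : ∀ t ψ, Cone D ψ → D.c 0 t * ψ D.one ≤ ψ (D.mul t (D.top D.base))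
  pos : ∀ n, 0 < D.c n D.one
  dg_one : D.dg D.one = 1
  dg_pos : ∀ t, 1 ≤ D.dg t
  convex : ∀ n y, D.c (n + 1) (D.mul (D.dual y) y) ^ 2 ≤
    D.c (n + 2) (D.mul (D.dual y) y) * D.c n (D.mul (D.dual y) y)
  convex_one : ∀ n, D.c (n + 1) D.one ^ 2 ≤ D.c (n + 2) D.one * D.c n D.one
  bound : ∃ B : ℝ, ∀ n, (D.c (n + 1) D.one : ℝ) ≤ B * D.c n D.one
  pol : (∀ s, ∃ y, ∀ n, D.c n (D.mul (D.dual y) y) =
    D.c n D.one + 2 * D.c n s + D.c n (D.mul (D.dual s) s)) ∨ ∀ n, D.c n D.one ≤ 1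
  triv : ∀ y, D.Triv y → ∀ n, D.c n (D.mul (D.dual y) y) = 0
  dich : ∀ y, D.Triv y ∨ ∀ ψ, Cone D ψ → ψ D.one ≤ ψ (D.mul (D.dual y) y)
  dual : ∀ n t, D.c n (D.dual t) = D.c n t

/-- comparison of growth -/
lemma cmp {x y : ℕ → ℝ} {r s C : ℝ} (n₀ : ℕ) (hs : 0 < s) (hsr : s < r) (hC : 0 < C)
    (hx : ∀ n ≥ n₀, r * x n ≤ x (n + 1)) (hy : ∀ n ≥ n₀, y (n + 1) ≤ s * y n)
    (hx0 : 0 < x n₀) (h : ∀ n, x n ≤ C * y n) : False := by
  have hr : 0 < r := hs.trans hsr
  have h1 : ∀ j : ℕ, r ^ j * x n₀ ≤ x (n₀ + j) := by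
    intro j
    induction j with
    | zero => simp
    | succ j ih =>
      calc r ^ (j + 1) * x n₀ = r * (r ^ j * x n₀) := by ring
        _ ≤ r * x (n₀ + j) := mul_le_mul_of_nonneg_left ih hr.le
        _ ≤ _ := hx _ (by omega)
  have h2 : ∀ j : ℕ, y (n₀ + j) ≤ s ^ j * y n₀ := by
    intro j
    induction j with
    | zero => simp
    | succ j ih =>
      calc y (n₀ + j + 1) ≤ s * y (n₀ + j) := hy _ (by omega)
        _ ≤ s * (s ^ j * y n₀) := mul_le_mul_of_nonneg_left ih hs.le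
        _ = _ := by ring
  have h3 : ∀ j : ℕ, (r / s) ^ j ≤ C * y n₀ / x n₀ := by
    intro j
    rw [div_pow, div_le_div_iff₀ (by positivity) hx0]
    calc r ^ j * x n₀ ≤ x (n₀ + j) := h1 j
      _ ≤ C * y (n₀ + j) := h _
      _ ≤ C * (s ^ j * y n₀) := mul_le_mul_of_nonneg_left (h2 j) hC.le
      _ = _ := by ring
  obtain ⟨j, hj⟩ := pow_unbounded_of_one_lt (C * y n₀ / x n₀) ((one_lt_div hs).2 hsr)
  exact absurd (h3 j) (not_le.2 hj)

/-- The ratios of a log-convex sequence increase. -/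
lemma ratio_mono {f : ℕ → ℝ} (hf : ∀ n, 0 < f n) (h : ∀ n, f (n + 1) ^ 2 ≤ f (n + 2) * f n) :
    Monotone fun n => f (n + 1) / f n := by
  apply monotone_nat_of_le_succ
  intro n
  rw [div_le_div_iff₀ (hf _) (hf _)]
  calc f (n + 1) * f (n + 1) = f (n + 1) ^ 2 := by ring
    _ ≤ _ := h n

namespace IsPF

variable {D : Dat T} (h : IsPF D)

include h

/-- the numbers of invariants -/
lemma a_pos (n : ℕ) : (0 : ℝ) < D.c n D.one := by exact_mod_cast h.pos n

lemma a_mono : Monotone fun n => (D.c (n + 1) D.one : ℝ) / D.c n D.one :=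
  ratio_mono (f := fun n => (D.c n D.one : ℝ)) (fun n => h.a_pos n)
    (fun n => by exact_mod_cast h.convex_one n)

/-- the growth rate -/
lemma exists_R : ∃ R : ℝ, Tendsto (fun n => (D.c (n + 1) D.one : ℝ) / D.c n D.one) atTop (𝓝 R) ∧
    ∀ n, (D.c (n + 1) D.one : ℝ) ≤ R * D.c n D.one := by
  obtain ⟨B, hB⟩ := h.bound
  have hb : BddAbove (Set.range fun n => (D.c (n + 1) D.one : ℝ) / D.c n D.one) := by
    refine ⟨B, ?_⟩
    rintro _ ⟨n, rfl⟩
    exact (div_le_iff₀ (h.a_pos n)).2 (hB n)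
  refine ⟨_, tendsto_atTop_ciSup h.a_mono hb, fun n => ?_⟩
  rw [← div_le_iff₀ (h.a_pos n)]
  exact le_ciSup hb n

lemma c_top (n : ℕ) (t : T) : (D.c n (D.top t) : ℝ) = D.c (n + D.dg t) D.one := by
  rw [← (h.cone n).iso _ _ (h.mul_one (D.top t)), h.shift]

lemma c_le_top (n : ℕ) (t : T) : (D.c n t : ℝ) ≤ D.c (n + D.dg t) D.one := by
  rw [← h.c_top, (h.cone n).sum _ _ _ (h.sum_cpl t)]
  have := (h.cone n).nonneg (D.cpl t)
  linarith

lemma c_succ (n : ℕ) (t : T) : (D.c n t : ℝ) ≤ D.c (n + 1) t := by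
  have h1 := h.shift n D.one t
  rw [h.dg_one] at h1
  rw [← h1, (h.cone n).iso _ _ (h.comm (D.top D.one) t),
    (h.cone n).sum _ _ _ (h.sum_mul t (h.sum_cpl D.one)), (h.cone n).iso _ _ (h.mul_one t)]
  have := (h.cone n).nonneg (D.mul t (D.cpl D.one))
  linarith

end IsPF

/-- The growth rate. -/
structure Rate (D : Dat T) (R : ℝ) : Prop where
  lim : Tendsto (fun n => (D.c (n + 1) D.one : ℝ) / D.c n D.one) atTop (𝓝 R)
  le : ∀ n, (D.c (n + 1) D.one : ℝ) ≤ R * D.c n D.one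

namespace IsPF

variable {D : Dat T} (h : IsPF D) {R : ℝ} (hR : Rate D R)

include h hR

lemma one_le_R : 1 ≤ R := by
  have h1 := h.c_succ 0 D.one
  have h2 := hR.le 0
  have h3 := h.a_pos 0
  by_contra hlt
  push Not at hlt
  nlinarith

lemma R_pos : 0 < R := lt_of_lt_of_le one_pos (h.one_le_R hR)

lemma a_le (n k : ℕ) : (D.c (n + k) D.one : ℝ) ≤ R ^ k * D.c n D.one := by
  induction k with
  | zero => simp
  | succ k ih =>
    calc (D.c (n + k + 1) D.one : ℝ) ≤ R * D.c (n + k) D.one := hR.le _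
      _ ≤ R * (R ^ k * D.c n D.one) := mul_le_mul_of_nonneg_left ih (h.R_pos hR).le
      _ = _ := by ring

lemma c_le (n : ℕ) (t : T) : (D.c n t : ℝ) ≤ R ^ D.dg t * D.c n D.one :=
  (h.c_le_top n t).trans (h.a_le hR n _)

lemma lim_k (k : ℕ) : Tendsto (fun n => (D.c (n + k) D.one : ℝ) / D.c n D.one) atTop
    (𝓝 (R ^ k)) := by
  induction k with
  | zero =>
    refine (tendsto_const_nhds (x := (1 : ℝ))).congr' ?_ |>.trans (by simp)
    filter_upwards with n
    rw [add_zero, div_self (h.a_pos n).ne']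
  | succ k ih =>
    have h1 := (hR.lim.comp (tendsto_add_atTop_nat k)).mul ih
    rw [pow_succ', ]
    refine h1.congr fun n => ?_
    have := h.a_pos (n + k)
    have := h.a_pos n
    simp only [Function.comp_apply]
    field_simp
    rfl

/-- Ratios for positive elements. -/
lemma lim_pos (y : T) (hy : ∀ n, (D.c n D.one : ℝ) ≤ D.c n (D.mul (D.dual y) y)) :
    Tendsto (fun n => (D.c (n + 1) (D.mul (D.dual y) y) : ℝ) / D.c n (D.mul (D.dual y) y)) atTop
      (𝓝 R) := by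
  set t := D.mul (D.dual y) y with ht
  set f : ℕ → ℝ := fun n => (D.c n t : ℝ) with hf
  have hR0 := h.R_pos hR
  have hf0 : ∀ n, 0 < f n := fun n => (h.a_pos n).trans_le (hy n)
  have hm : Monotone fun n => f (n + 1) / f n :=
    ratio_mono hf0 (fun n => by
      have := h.convex n y
      simp only [hf]
      exact_mod_cast this)
  have hup : ∀ n, f n ≤ R ^ D.dg t * D.c n D.one := fun n => h.c_le hR n t
  -- upper bound
  have hle : ∀ n, f (n + 1) / f n ≤ R := by
    intro n₀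
    by_contra hlt
    push Not at hlt
    refine cmp (x := f) (y := fun n => (D.c n D.one : ℝ)) (r := f (n₀ + 1) / f n₀) (s := R)
      (C := R ^ D.dg t) n₀ hR0 hlt (by positivity) (fun n hn => ?_) (fun n _ => hR.le n) (hf0 _) hup
    rw [← le_div_iff₀ (hf0 n)]
    exact hm hn
  have hb : BddAbove (Set.range fun n => f (n + 1) / f n) := by
    refine ⟨R, ?_⟩
    rintro _ ⟨n, rfl⟩
    exact hle n
  have hlim := tendsto_atTop_ciSup hm hb
  set L := ⨆ n, f (n + 1) / f n with hL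
  have hLR : L ≤ R := ciSup_le hle
  rcases lt_or_eq_of_le hLR with hlt | heq
  · exfalso
    obtain ⟨r, hr1, hr2⟩ := exists_between hlt
    have hL0 : 0 < L := lt_of_lt_of_le (div_pos (hf0 1) (hf0 0)) (le_ciSup hb 0)
    obtain ⟨n₀, hn₀⟩ := eventually_atTop.1 (hR.lim.eventually (lt_mem_nhds hr2))
    refine cmp (x := fun n => (D.c n D.one : ℝ)) (y := f) (r := r) (s := L) (C := 1) n₀ hL0 hr1
      one_pos (fun n hn => ?_) (fun n _ => ?_) (h.a_pos _) (fun n => by rw [one_mul]; exact hy n)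
    · rw [← le_div_iff₀ (h.a_pos n)]
      exact (hn₀ n hn).le
    · rw [← div_le_iff₀ (hf0 n)]
      exact le_ciSup hb n
  · rw [heq] at hlim
    exact hlim

/-- Positive elements. -/
lemma diff_pos (y : T) : Tendsto (fun n => ((D.c (n + 1) (D.mul (D.dual y) y) : ℝ) -
    R * D.c n (D.mul (D.dual y) y)) / D.c n D.one) atTop (𝓝 0) := by
  rcases h.dich y with h0 | h1
  · replace h0 := h.triv y h0
    refine tendsto_const_nhds.congr fun n => ?_
    rw [h0, h0]
    simp
  · have hy : ∀ n, (D.c n D.one : ℝ) ≤ D.c n (D.mul (D.dual y) y) := fun n => h1 _ (h.cone n)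
    have h2 := h.lim_pos hR y hy
    set t := D.mul (D.dual y) y with ht
    have h3 : Tendsto (fun n => (D.c (n + 1) t : ℝ) / D.c n t - R) atTop (𝓝 0) := by
      have := h2.sub (tendsto_const_nhds (x := R))
      rwa [sub_self] at this
    have h4 : Tendsto (fun n => (R ^ D.dg t) * |(D.c (n + 1) t : ℝ) / D.c n t - R|) atTop (𝓝 0) := by
      have := h3.abs.const_mul (R ^ D.dg t)
      rwa [abs_zero, mul_zero] at this
    apply squeeze_zero_norm _ h4
    intro n
    have ha := h.a_pos n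
    have hc : (0 : ℝ) < D.c n t := ha.trans_le (hy n)
    have e : ((D.c (n + 1) t : ℝ) - R * D.c n t) / D.c n D.one =
        ((D.c n t : ℝ) / D.c n D.one) * ((D.c (n + 1) t : ℝ) / D.c n t - R) := by
      field_simp
    rw [e, Real.norm_eq_abs, abs_mul]
    apply mul_le_mul_of_nonneg_right _ (abs_nonneg _)
    rw [abs_of_nonneg (by positivity), div_le_iff₀ ha]
    exact h.c_le hR n t

/-- All elements. -/
lemma diff_lim (s : T) : Tendsto (fun n => ((D.c (n + 1) s : ℝ) - R * D.c n s) / D.c n D.one)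
    atTop (𝓝 0) := by
  rcases h.pol with hp | hp
  · obtain ⟨y, hy⟩ := hp s
    have h1 := h.diff_pos hR y
    have h2 := h.diff_pos hR s
    have h3 : Tendsto (fun n => ((D.c (n + 1) D.one : ℝ) - R * D.c n D.one) / D.c n D.one)
        atTop (𝓝 0) := by
      have := hR.lim.sub (tendsto_const_nhds (x := R))
      rw [sub_self] at this
      refine this.congr fun n => ?_
      have := h.a_pos n
      field_simp
    have h4 := ((h1.sub h2).sub h3).div_const 2
    rw [sub_zero, sub_zero, zero_div] at h4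
    refine h4.congr fun n => ?_
    have ha := h.a_pos n
    have e1 : (D.c (n + 1) (D.mul (D.dual y) y) : ℝ) = D.c (n + 1) D.one + 2 * D.c (n + 1) s +
        D.c (n + 1) (D.mul (D.dual s) s) := by exact_mod_cast hy (n + 1)
    have e2 : (D.c n (D.mul (D.dual y) y) : ℝ) = D.c n D.one + 2 * D.c n s +
        D.c n (D.mul (D.dual s) s) := by exact_mod_cast hy n
    rw [e1, e2]
    field_simp
    ring
  · have ha : ∀ n, D.c n D.one = 1 := fun n => le_antisymm (hp n) (h.pos n)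
    have hR1 : R = 1 := by
      have h1 : Tendsto (fun n => (D.c (n + 1) D.one : ℝ) / D.c n D.one) atTop (𝓝 1) := by
        refine tendsto_const_nhds.congr fun n => ?_
        rw [ha, ha]
        simp
      exact tendsto_nhds_unique hR.lim h1
    have hm : Monotone fun n => D.c n s := by
      apply monotone_nat_of_le_succ
      intro n
      exact_mod_cast h.c_succ n s
    have hb : ∀ n, D.c n s ≤ 1 := by
      intro n
      have h1 := h.c_le_top n s
      rw [ha] at h1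
      exact_mod_cast h1
    obtain ⟨n₀, hn₀⟩ : ∃ n₀, ∀ n ≥ n₀, D.c (n + 1) s = D.c n s := by
      by_cases hz : ∃ n₀, D.c n₀ s = 1
      · obtain ⟨n₀, hn₀⟩ := hz
        refine ⟨n₀, fun n hn => ?_⟩
        have h1 : D.c n₀ s ≤ D.c n s := hm hn
        have h2 : D.c n₀ s ≤ D.c (n + 1) s := hm (show n₀ ≤ n + 1 by omega)
        have h3 := hb n
        have h4 := hb (n + 1)
        omega
      · push Not at hz
        refine ⟨0, fun n _ => ?_⟩
        have h1 := hz n
        have h2 := hz (n + 1)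
        have h3 := hb n
        have h4 := hb (n + 1)
        omega
    refine tendsto_const_nhds.congr' ?_
    filter_upwards [eventually_ge_atTop n₀] with n hn
    rw [hn₀ n hn, hR1]
    simp

lemma diff_lim_k (s : T) (k : ℕ) :
    Tendsto (fun n => ((D.c (n + k) s : ℝ) - R ^ k * D.c n s) / D.c n D.one) atTop (𝓝 0) := by
  induction k with
  | zero =>
    refine tendsto_const_nhds.congr fun n => ?_
    simp
  | succ k ih =>
    have h1 := ((h.diff_lim hR s).comp (tendsto_add_atTop_nat k)).mul (h.lim_k hR k)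
    have h2 := h1.add (ih.const_mul R)
    rw [zero_mul, mul_zero, add_zero] at h2
    refine h2.congr fun n => ?_
    have := h.a_pos (n + k)
    have := h.a_pos n
    simp only [Function.comp_apply]
    have e : n + (k + 1) = n + k + 1 := rfl
    rw [e, pow_succ]
    field_simp
    ring

end IsPF

/-- The functionals. -/
def KK (D : Dat T) (R : ℝ) : Set (T → ℝ) :=
  {ψ | (∀ t, 0 ≤ ψ t) ∧ (∀ t a b, D.Sum t a b → ψ t = ψ a + ψ b) ∧
    (∀ t s, D.Iso t s → ψ t = ψ s) ∧ ψ D.one = 1 ∧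
    ∀ t s, ψ (D.mul (D.top t) s) = R ^ D.dg t * ψ s}

lemma KK.cone {D : Dat T} {R : ℝ} {ψ : T → ℝ} (hψ : ψ ∈ KK D R) : Cone D ψ :=
  ⟨hψ.1, hψ.2.1, hψ.2.2.1⟩

namespace IsPF

variable {D : Dat T} (h : IsPF D) {R : ℝ}

include h

lemma top_eq {ψ : T → ℝ} (hψ : ψ ∈ KK D R) (t : T) : ψ (D.top t) = R ^ D.dg t := by
  rw [← hψ.2.2.1 _ _ (h.mul_one (D.top t)), hψ.2.2.2.2, hψ.2.2.2.1, _root_.mul_one]

lemma le_top {ψ : T → ℝ} (hψ : ψ ∈ KK D R) (t : T) : ψ t ≤ R ^ D.dg t := by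
  rw [← h.top_eq hψ, hψ.2.1 _ _ _ (h.sum_cpl t)]
  have := hψ.1 (D.cpl t)
  linarith

lemma isCompact : IsCompact (KK D R) := by
  have h1 : IsCompact (Set.univ.pi fun t : T => Set.Icc (0 : ℝ) (R ^ D.dg t)) :=
    isCompact_univ_pi fun _ => isCompact_Icc
  refine h1.of_isClosed_subset ?_ fun ψ hψ t _ => ⟨hψ.1 t, h.le_top hψ t⟩
  simp only [KK, Set.ofPred_and, Set.ofPred_forall]
  refine IsClosed.inter ?_ (IsClosed.inter ?_ (IsClosed.inter ?_ (IsClosed.inter ?_ ?_)))
  · exact isClosed_iInter fun t => isClosed_le continuous_const (continuous_apply t)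
  · exact isClosed_iInter fun t => isClosed_iInter fun a => isClosed_iInter fun b =>
      isClosed_iInter fun _ => isClosed_eq (continuous_apply t)
        ((continuous_apply a).add (continuous_apply b))
  · exact isClosed_iInter fun t => isClosed_iInter fun s => isClosed_iInter fun _ =>
      isClosed_eq (continuous_apply t) (continuous_apply s)
  · exact isClosed_eq (continuous_apply _) continuous_const
  · exact isClosed_iInter fun t => isClosed_iInter fun s =>
      isClosed_eq (continuous_apply _) (continuous_const.mul (continuous_apply s))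

lemma mul_right {ψ : T → ℝ} (hψ : Cone D ψ) {t a b : T} (hs : D.Sum t a b) (s : T) :
    ψ (D.mul t s) = ψ (D.mul a s) + ψ (D.mul b s) := by
  rw [hψ.iso _ _ (h.comm t s), hψ.sum _ _ _ (h.sum_mul s hs), hψ.iso _ _ (h.comm s a),
    hψ.iso _ _ (h.comm s b)]

lemma iso_right {ψ : T → ℝ} (hψ : Cone D ψ) {t s : T} (hs : D.Iso t s) (u : T) :
    ψ (D.mul t u) = ψ (D.mul s u) := by
  rw [hψ.iso _ _ (h.comm t u), hψ.iso _ _ (h.iso_mul u hs), hψ.iso _ _ (h.comm u s)]

lemma mul_top {ψ : T → ℝ} (hψ : ψ ∈ KK D R) (t y : T) :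
    ψ (D.mul y (D.top t)) = R ^ D.dg t * ψ y := by
  rw [hψ.2.2.1 _ _ (h.comm y (D.top t)), hψ.2.2.2.2]

lemma translate {ψ : T → ℝ} (hψ : ψ ∈ KK D R) {y : T} (hy : 0 < ψ y) :
    (fun s => ψ (D.mul y s) / ψ y) ∈ KK D R := by
  have hc := KK.cone hψ
  refine ⟨fun t => div_nonneg (hψ.1 _) hy.le, fun t a b hs => ?_, fun t s hs => ?_, ?_,
    fun t s => ?_⟩
  · beta_reduce
    rw [hψ.2.1 _ _ _ (h.sum_mul y hs), add_div]
  · beta_reduce
    rw [hψ.2.2.1 _ _ (h.iso_mul y hs)]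
  · beta_reduce
    rw [hψ.2.2.1 _ _ (h.mul_one y), div_self hy.ne']
  · beta_reduce
    rw [← hψ.2.2.1 _ _ (h.assoc y (D.top t) s), h.iso_right hc (h.comm y (D.top t)),
      hψ.2.2.1 _ _ (h.assoc (D.top t) y s), hψ.2.2.2.2, mul_div_assoc]

lemma mul_zero' {ψ : T → ℝ} (hψ : ψ ∈ KK D R) {y : T} (hy : ψ y = 0) (M : T) :
    ψ (D.mul y M) = 0 := by
  have h1 := hψ.2.1 _ _ _ (h.sum_mul y (h.sum_cpl M))
  rw [h.mul_top hψ, hy, mul_zero] at h1
  have h2 := hψ.1 (D.mul y M)
  have h3 := hψ.1 (D.mul y (D.cpl M))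
  linarith

/-- Minimisers are multiplicative. -/
lemma mult_min {ψ : T → ℝ} (hψ : ψ ∈ KK D R) {M : T} (hM : ∀ φ ∈ KK D R, ψ M ≤ φ M) (y : T) :
    ψ (D.mul y M) = ψ y * ψ M := by
  have key : ∀ z, ψ z * ψ M ≤ ψ (D.mul z M) := by
    intro z
    rcases (hψ.1 z).eq_or_lt with hz | hz
    · rw [← hz, zero_mul]; exact hψ.1 _
    · have h1 := hM _ (h.translate hψ hz)
      rw [le_div_iff₀ hz] at h1
      linarith
  have h1 := key y
  have h2 := key (D.cpl y)
  have h3 := h.mul_right (KK.cone hψ) (h.sum_cpl y) M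
  rw [hψ.2.2.2.2] at h3
  have h4 := hψ.2.1 _ _ _ (h.sum_cpl y)
  rw [h.top_eq hψ] at h4
  have h5 : R ^ D.dg y * ψ M = ψ y * ψ M + ψ (D.cpl y) * ψ M := by rw [h4]; ring
  linarith

/-- Maximisers are multiplicative. -/
lemma mult_max {ψ : T → ℝ} (hψ : ψ ∈ KK D R) {M : T} (hM : ∀ φ ∈ KK D R, φ M ≤ ψ M) (y : T) :
    ψ (D.mul y M) = ψ y * ψ M := by
  have e : ∀ φ ∈ KK D R, φ M + φ (D.cpl M) = R ^ D.dg M := by
    intro φ hφ
    rw [← h.top_eq hφ, hφ.2.1 _ _ _ (h.sum_cpl M)]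
  have h1 := h.mult_min hψ (M := D.cpl M) (fun φ hφ => by
    have h2 := hM φ hφ
    have h3 := e φ hφ
    have h4 := e ψ hψ
    linarith) y
  have h2 := hψ.2.1 _ _ _ (h.sum_mul y (h.sum_cpl M))
  rw [h.mul_top hψ, h1] at h2
  have h3 := e ψ hψ
  have h4 : ψ y * ψ M = ψ y * (R ^ D.dg M - ψ (D.cpl M)) := by rw [← h3]; ring
  linarith

end IsPF

end Pool.Agent.V7H5.PF
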