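import Pool.Agent.V7H5.PF.Abs

/-!
# Uniqueness of the Perron-Frobenius character
-/

namespace Pool.Agent.V7H5.PF

open Filter Topology

variable {T : Type*}

namespace IsPF

variable {D : Dat T} (h : IsPF D) {R : ℝ}

include h

lemma cpl_right {ψ : T → ℝ} (hψ : ψ ∈ KK D R) {M : T}
    (h1 : ∀ y, ψ (D.mul y M) = ψ y * ψ M) (y : T) :
    ψ (D.mul M y) = ψ y * ψ M ∧ ψ (D.mul (D.cpl M) y) = ψ y * (R ^ D.dg M - ψ M) := by
  have e1 : ψ (D.mul M y) = ψ y * ψ M := by rw [hψ.2.2.1 _ _ (h.comm M y), h1]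
  refine ⟨e1, ?_⟩
  have h2 := h.mul_right (KK.cone hψ) (h.sum_cpl M) y
  rw [hψ.2.2.2.2, e1] at h2
  linarith

lemma le_of_mem {ψ : T → ℝ} (hψ : ψ ∈ KK D R) (y : T) :
    (D.c 0 y : ℝ) ≤ R ^ D.dg D.base * ψ y := by
  have h1 := h.copies y ψ (KK.cone hψ)
  rwa [hψ.2.2.2.1, _root_.mul_one, h.mul_top hψ] at h1

lemma two_bound (hR0 : 0 < R) {ψ φ : T → ℝ} (hψ : ψ ∈ KK D R) (hφ : φ ∈ KK D R) {M : T}
    (h1 : ∀ y, ψ (D.mul y M) = ψ y * ψ M) (h2 : ∀ y, φ (D.mul y M) = φ y * φ M) (N : ℕ) :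
    ∀ y, (D.c (N * D.dg M) y : ℝ) ≤ R ^ D.dg D.base *
      (√(ψ M * φ M) + √((R ^ D.dg M - ψ M) * (R ^ D.dg M - φ M))) ^ N * √(ψ y * φ y) := by
  set C := R ^ D.dg D.base with hC
  have hC0 : 0 < C := by positivity
  set δ := √(ψ M * φ M) + √((R ^ D.dg M - ψ M) * (R ^ D.dg M - φ M)) with hδ
  have hδ0 : 0 ≤ δ := by positivity
  induction N with
  | zero =>
    intro y
    rw [zero_mul, pow_zero, _root_.mul_one]
    have e1 := h.le_of_mem hψ y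
    have e2 := h.le_of_mem hφ y
    have e0 : (0 : ℝ) ≤ D.c 0 y := Nat.cast_nonneg _
    have e3 : (D.c 0 y : ℝ) ^ 2 ≤ C ^ 2 * (ψ y * φ y) := by
      calc (D.c 0 y : ℝ) ^ 2 = D.c 0 y * D.c 0 y := by ring
        _ ≤ (C * ψ y) * (C * φ y) := mul_le_mul e1 e2 e0 (by have := hψ.1 y; positivity)
        _ = _ := by ring
    calc (D.c 0 y : ℝ) ≤ √(C ^ 2 * (ψ y * φ y)) := Real.le_sqrt_of_sq_le e3
      _ = C * √(ψ y * φ y) := by
        rw [Real.sqrt_mul (by positivity), Real.sqrt_sq hC0.le]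
  | succ N ih =>
    intro y
    have e1 : (D.c ((N + 1) * D.dg M) y : ℝ) =
        D.c (N * D.dg M) (D.mul M y) + D.c (N * D.dg M) (D.mul (D.cpl M) y) := by
      rw [add_mul, one_mul, ← h.shift, ← h.mul_right (h.cone _) (h.sum_cpl M) y]
    obtain ⟨a1, a2⟩ := h.cpl_right hψ h1 y
    obtain ⟨b1, b2⟩ := h.cpl_right hφ h2 y
    have e2 := ih (D.mul M y)
    have e3 := ih (D.mul (D.cpl M) y)
    rw [a1, b1] at e2
    rw [a2, b2] at e3
    have hy0 : 0 ≤ ψ y * φ y := mul_nonneg (hψ.1 y) (hφ.1 y)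
    have s1 : √(ψ y * ψ M * (φ y * φ M)) = √(ψ y * φ y) * √(ψ M * φ M) := by
      rw [← Real.sqrt_mul hy0]; congr 1; ring
    have s2 : √(ψ y * (R ^ D.dg M - ψ M) * (φ y * (R ^ D.dg M - φ M))) =
        √(ψ y * φ y) * √((R ^ D.dg M - ψ M) * (R ^ D.dg M - φ M)) := by
      rw [← Real.sqrt_mul hy0]; congr 1; ring
    rw [s1] at e2
    rw [s2] at e3
    rw [e1]
    calc (D.c (N * D.dg M) (D.mul M y) : ℝ) + D.c (N * D.dg M) (D.mul (D.cpl M) y)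
        ≤ C * δ ^ N * (√(ψ y * φ y) * √(ψ M * φ M)) + C * δ ^ N * (√(ψ y * φ y) *
          √((R ^ D.dg M - ψ M) * (R ^ D.dg M - φ M))) := add_le_add e2 e3
      _ = C * δ ^ (N + 1) * √(ψ y * φ y) := by rw [hδ]; ring

lemma sqrt_lt {m m' A : ℝ} (h0 : 0 ≤ m) (hlt : m < m') (hA : m' ≤ A) :
    √(m * m') + √((A - m) * (A - m')) < A := by
  have h1 : √(m * m') < (m + m') / 2 := by
    rw [Real.sqrt_lt' (by linarith)]
    nlinarith [sq_nonneg (m - m'), sq_pos_of_pos (sub_pos.2 hlt)]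
  have h2 : √((A - m) * (A - m')) ≤ (2 * A - m - m') / 2 := by
    rw [Real.sqrt_le_left (by linarith)]
    nlinarith [sq_nonneg (m - m')]
  linarith

/-- **Uniqueness.** -/
theorem unique (hR : Rate D R) {ψ φ : T → ℝ} (hψ : ψ ∈ KK D R) (hφ : φ ∈ KK D R) (M : T) :
    ψ M = φ M := by
  have hR0 := h.R_pos hR
  obtain ⟨ψ0, hψ0, hmin⟩ := h.isCompact.exists_isMinOn ⟨ψ, hψ⟩
    (continuous_apply M).continuousOn
  obtain ⟨φ0, hφ0, hmax⟩ := h.isCompact.exists_isMaxOn ⟨ψ, hψ⟩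
    (continuous_apply M).continuousOn
  have hmin' : ∀ χ ∈ KK D R, ψ0 M ≤ χ M := fun χ hχ => hmin hχ
  have hmax' : ∀ χ ∈ KK D R, χ M ≤ φ0 M := fun χ hχ => hmax hχ
  suffices hh : ¬ ψ0 M < φ0 M by
    push Not at hh
    have e1 := hmin' ψ hψ
    have e2 := hmin' φ hφ
    have e3 := hmax' ψ hψ
    have e4 := hmax' φ hφ
    linarith
  intro hlt
  set k := D.dg M with hk
  have hk1 : 1 ≤ k := h.dg_pos M
  set A := R ^ k with hA
  set δ := √(ψ0 M * φ0 M) + √((A - ψ0 M) * (A - φ0 M)) with hδ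
  have hδA : δ < A := h.sqrt_lt (hψ0.1 M) hlt (h.le_top hφ0 M)
  have hδ0 : 0 ≤ δ := by positivity
  obtain ⟨s, hs1, hs2⟩ := exists_between hδA
  obtain ⟨r, hr1, hr2⟩ := exists_between hs2
  have hb := h.two_bound hR0 hψ0 hφ0 (h.mult_min hψ0 hmin') (h.mult_max hφ0 hmax')
  obtain ⟨n₀, hn₀⟩ := eventually_atTop.1 ((h.lim_k hR k).eventually (lt_mem_nhds hr2))
  refine cmp (x := fun N => (D.c (N * k) D.one : ℝ)) (y := fun N => s ^ N) (r := r) (s := s)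
    (C := R ^ D.dg D.base) n₀ (lt_of_le_of_lt hδ0 hs1) hr1 (by positivity) (fun N hN => ?_)
    (fun N _ => ?_) (h.a_pos _) (fun N => ?_)
  · have h1 := hn₀ (N * k) (hN.trans (Nat.le_mul_of_pos_right _ hk1))
    rw [lt_div_iff₀ (h.a_pos _)] at h1
    have e : (N + 1) * k = N * k + k := by ring
    rw [e]
    exact h1.le
  · rw [pow_succ']
  · have h1 := hb N D.one
    rw [hψ0.2.2.2.1, hφ0.2.2.2.1, _root_.mul_one, Real.sqrt_one, _root_.mul_one] at h1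
    refine h1.trans (mul_le_mul_of_nonneg_left ?_ (by positivity))
    exact pow_le_pow_left₀ hδ0 hs1.le N

/-- Limits of multiplicities. -/
lemma exists_lim (hR : Rate D R) (U : Ultrafilter ℕ) (hU : (U : Filter ℕ) ≤ atTop) :
    ∃ φ ∈ KK D R, ∀ t, Tendsto (fun n => (D.c n t : ℝ) / D.c n D.one) U (𝓝 (φ t)) := by
  have key : ∀ t, ∃ x ∈ Set.Icc (0 : ℝ) (R ^ D.dg t),
      Tendsto (fun n => (D.c n t : ℝ) / D.c n D.one) U (𝓝 x) := by
    intro t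
    have hK : IsCompact (Set.Icc (0 : ℝ) (R ^ D.dg t)) := isCompact_Icc
    have hm : ∀ n, (D.c n t : ℝ) / D.c n D.one ∈ Set.Icc (0 : ℝ) (R ^ D.dg t) := fun n =>
      ⟨div_nonneg (Nat.cast_nonneg _) (Nat.cast_nonneg _),
        (div_le_iff₀ (h.a_pos n)).2 (h.c_le hR n t)⟩
    obtain ⟨x, hx, hx2⟩ := hK.ultrafilter_le_nhds (U.map fun n => (D.c n t : ℝ) / D.c n D.one)
      (by
        rw [Filter.le_principal_iff]
        exact Filter.mem_map.2 (Filter.univ_mem' hm))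
    exact ⟨x, hx, hx2⟩
  choose φ hφ1 hφ2 using key
  refine ⟨φ, ⟨fun t => (hφ1 t).1, fun t a b hs => ?_, fun t s hs => ?_, ?_, fun t s => ?_⟩, hφ2⟩
  · refine tendsto_nhds_unique (hφ2 t) (((hφ2 a).add (hφ2 b)).congr fun n => ?_)
    rw [← add_div, ← (h.cone n).sum _ _ _ hs]
  · refine tendsto_nhds_unique (hφ2 t) ((hφ2 s).congr fun n => ?_)
    rw [← (h.cone n).iso _ _ hs]
  · refine tendsto_nhds_unique (hφ2 D.one) (tendsto_const_nhds.congr fun n => ?_)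
    rw [div_self (h.a_pos n).ne']
  · have h1 : Tendsto (fun n => ((D.c (n + D.dg t) s : ℝ) - R ^ D.dg t * D.c n s) / D.c n D.one)
        U (𝓝 0) := (h.diff_lim_k hR s (D.dg t)).mono_left hU
    have h2 := h1.add ((hφ2 s).const_mul (R ^ D.dg t))
    rw [zero_add] at h2
    refine tendsto_nhds_unique (hφ2 _) (h2.congr fun n => ?_)
    rw [h.shift]
    have := h.a_pos n
    field_simp
    ring

/-- **The Perron-Frobenius character.** -/
theorem main : ∃ R : ℝ, Rate D R ∧ ∃ ψ ∈ KK D R,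
    (∀ t, Tendsto (fun n => (D.c n t : ℝ) / D.c n D.one) atTop (𝓝 (ψ t))) ∧
    (∀ s t, ψ (D.mul s t) = ψ s * ψ t) ∧ ∀ t, D.Triv t ∨ 1 ≤ ψ t := by
  obtain ⟨R, hR1, hR2⟩ := h.exists_R
  have hR : Rate D R := ⟨hR1, hR2⟩
  obtain ⟨ψ, hψ, -⟩ := h.exists_lim hR (Ultrafilter.of atTop) (Ultrafilter.of_le _)
  have hlim : ∀ t, Tendsto (fun n => (D.c n t : ℝ) / D.c n D.one) atTop (𝓝 (ψ t)) := by
    intro t
    rw [tendsto_iff_ultrafilter]
    intro U hU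
    obtain ⟨φ, hφ, hφ2⟩ := h.exists_lim hR U hU
    rw [h.unique hR hψ hφ t]
    exact hφ2 t
  have hmul : ∀ s t, ψ (D.mul s t) = ψ s * ψ t := fun s t =>
    h.mult_min hψ (fun φ hφ => (h.unique hR hψ hφ t).le) s
  refine ⟨R, hR, ψ, hψ, hlim, hmul, fun t => ?_⟩
  rcases h.dich t with h0 | h1
  · exact Or.inl h0
  · right
    have e1 := h1 ψ (KK.cone hψ)
    have e2 : ψ (D.dual t) = ψ t := by
      refine tendsto_nhds_unique (hlim _) ((hlim t).congr fun n => ?_)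
      rw [h.dual]
    rw [hψ.2.2.2.1, hmul, e2] at e1
    have e3 := hψ.1 t
    nlinarith

end IsPF

end Pool.Agent.V7H5.PF
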