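import Pool.Agent.V7H5.PF.Un

/-!
# Invariants of idempotent operators
-/

open CategoryTheory AlgebraicGeometry

universe u v

namespace Pool.Agent.V7H5.PF

open Module
open Pool.Agent.H914 Pool.Agent.H914.VarClass Pool.Agent.H914.VarClass.Obj
  Pool.Agent.H914.WeilCohomology Pool.Agent.Y133.Half

variable {k : Type u} [Field k] {𝒱 : VarClass k} {ops : CycleOps 𝒱}
  {W : WeilCohomology.{u, v} ops} {X Y Y' Z P Q R V : 𝒱.Obj} {S : Sys W}

/-- The Cauchy-Schwarz inequality. -/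
theorem cs2 {g g' : Module.End W.K (W.H P)} (hg : g ∈ S.Op P P) (hgg : g ∘ₗ g = g)
    (hadj : Adj W g' g) (Y Y' : 𝒱.Obj) :
    S.r (P.prod P) (extOp W g' g) (Y'.prod Y) ^ 2 ≤ S.r (P.prod P) (extOp W g' g) (Y.prod Y) *
      S.r (P.prod P) (extOp W g' g) (Y'.prod Y') := by
  let X : Fin 2 → 𝒱.Obj := ![P.prod Y, P.prod Y']
  have h1 : ∀ Y : 𝒱.Obj, extOp W g (1 : Module.End W.K (W.H Y)) ∈ S.Op (P.prod Y) (P.prod Y) :=
    fun Y => Sys.Op.ext hg Sys.Op.id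
  have h2 : ∀ Y : 𝒱.Obj, extOp W g (1 : Module.End W.K (W.H Y)) ∘ₗ extOp W g 1 = extOp W g 1 := by
    intro Y
    rw [ext_comp, hgg]
    rfl
  have key := (S.cat X).rk_B_sq_le' (i := 0) (j := 1) (g := extOp W g 1) (h1 Y) (h2 Y)
    (g' := extOp W g 1) (h1 Y') (h2 Y')
  have e01 := S.cat_B X 0 1 (extOp W g 1) (extOp W g 1)
  have e00 := S.cat_B X 0 0 (extOp W g 1) (extOp W g 1)
  have e11 := S.cat_B X 1 1 (extOp W g 1) (extOp W g 1)
  have f : ∀ Y Y' : 𝒱.Obj, rk (A := S.Op (P.prod Y') (P.prod Y)) (B := S.Op (P.prod Y) (P.prod Y'))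
      (S.BO (P.prod Y) (P.prod Y') (extOp W g 1) (extOp W g 1)) =
      S.r (P.prod P) (extOp W g' g) (Y'.prod Y) := by
    intro Y Y'
    rw [S.rk_BO (Sys.Op.ev (h1 Y)) (Sys.Op.ev (h1 Y')) (g'' := extOp W g' 1)
      (hadj.extOp Adj.one (Sys.Op.ev hg) Ev.id)]
    exact S.rk_F_iso (θ₂ P Y' P Y) fun x => θ₂_op (Sys.Op.ev hg) x
  rw [← f Y Y', ← f Y Y, ← f Y' Y']
  exact key

lemma rk_eq_zero {A B K : Type*} [Field K] [AddCommGroup A] [Module K A] [AddCommGroup B]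
    [Module K B] [FiniteDimensional K A] [FiniteDimensional K B] {β : A →ₗ[K] B →ₗ[K] K}
    (h : rk β = 0) : β = 0 := LinearMap.range_eq_bot.1 (Submodule.finrank_eq_zero.1 h)

/-- Numerically trivial operators. -/
lemma rk_nop {x : Module.End W.K (W.H P)} (hx : x ∈ S.NOp P P) : rk (S.F P x) = 0 := by
  obtain ⟨ν, hν, rfl⟩ := Sys.mem_NOp.1 hx
  have h : S.F P (W.corr ν) = 0 := by
    apply LinearMap.ext
    intro c
    apply LinearMap.ext
    intro d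
    rw [Sys.F_apply, corr_apply, W.tr_push, mul_assoc]
    exact hν.2 _ (S.mul (S.map _ c.2) (S.map _ d.2))
  rw [h, rk, LinearMap.range_zero, finrank_bot]

lemma nop_of_rk {g g' : Module.End W.K (W.H P)} (hg : g ∈ S.Op P P) (hgg : g ∘ₗ g = g)
    (hadj : Adj W g' g) (h : rk (S.F (P.prod P) (extOp W g' g)) = 0) : g ∈ S.NOp P P := by
  obtain ⟨γ, hγ, he⟩ := Sys.mem_Op.1 hg
  have h1 : W.corr (extOp W g' g γ) = W.corr γ := by
    rw [corr_extOp hadj (Sys.Op.ev hg) (Sys.Op.ev hg), he]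
    rw [hgg, hgg]
  have h2 : extOp W g' g γ = γ := by
    rw [← sub_eq_zero]
    apply corr_inj
    have h3 : corrL W P P (extOp W g' g γ - γ) = 0 := by
      rw [map_sub, sub_eq_zero]
      exact h1
    exact h3
  have h3 := rk_eq_zero h
  rw [← he]
  refine Sys.NOp.corr ⟨hγ, fun d hd => ?_⟩
  have h4 := congrArg (fun f : S.C (P.prod P) →ₗ[W.K] S.C (P.prod P) →ₗ[W.K] W.K =>
    f ⟨γ, hγ⟩ ⟨d, hd⟩) h3
  have h5 : W.tr (P.prod P) (extOp W g' g γ * d) = 0 := h4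
  rwa [h2] at h5

lemma nop_ext {g g' : Module.End W.K (W.H P)} (hg : g ∈ S.NOp P P) (hg' : g' ∈ S.Op P P)
    (Z : 𝒱.Obj) : extOp W (extOp W g' g) (1 : Module.End W.K (W.H Z)) ∈
      S.NOp ((P.prod P).prod Z) ((P.prod P).prod Z) := by
  apply Sys.NOp.ext_left
  have h : extOp W g' g = extOp W g' 1 ∘ₗ extOp W 1 g := by
    rw [ext_comp]
    rfl
  rw [h]
  exact Sys.NOp.comp_left (Sys.Op.ext hg' Sys.Op.id) (Sys.NOp.ext_right hg)

lemma r_adj {g g' : Module.End W.K (W.H P)} (hg : Ev W g) (hadj : Adj W g' g)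
    (Z : 𝒱.Obj) : S.r P g' Z = S.r P g Z := by
  have h1 : Adj W (extOp W g' (1 : Module.End W.K (W.H Z))) (extOp W g 1) :=
    hadj.extOp Adj.one hg Ev.id
  have h : S.F (P.prod Z) (extOp W g' 1) = (S.F (P.prod Z) (extOp W g 1)).flip := by
    apply LinearMap.ext
    intro c
    apply LinearMap.ext
    intro d
    rw [LinearMap.flip_apply, Sys.F_apply, Sys.F_apply, h1, PH.even_comm (S.even c.2)]
  rw [Sys.r, h, rk_flip]
  rfl

namespace Mo

variable (X)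

/-- the test object -/
noncomputable def zz (S : Sys W) (X : 𝒱.Obj) (n : ℕ) : Mo S where
  P := (pw X n).prod (pw X n)
  g := 1
  mem := Sys.Op.id
  idem := rfl

/-- the ranks -/
noncomputable def cc (n : ℕ) (t : Mo S) : ℕ := S.r t.P t.g ((pw X n).prod (pw X n))

variable {X}

lemma cc_eq (n : ℕ) (t : Mo S) : cc X n t = (t.mul (zz S X n)).rho := rfl

lemma cc_sum (n : ℕ) {t a b : Mo S} (h : SumR t a b) : cc X n t = cc X n a + cc X n b :=
  (h.mul_right (zz S X n)).rho_eq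

lemma cc_iso (n : ℕ) {t s : Mo S} (h : TIso t s) : cc X n t = cc X n s :=
  (h.mul_right (zz S X n)).1.rho_eq

lemma cc_un (n : ℕ) {c d : W.H Q} (hc : c ∈ S.C Q) (hd : d ∈ S.C Q) (h : W.tr Q (d * c) = 1) :
    cc X n (un hc hd h) = S.al X n := (un_mul (hc := hc) (hd := hd) (h := h) (zz S X n)).1.rho_eq

lemma cc_dual (n : ℕ) (t : Mo S) : cc X n t.dual = cc X n t :=
  r_adj (Sys.Op.ev t.mem) t.dual_adj _

lemma TIso.mul2 {t s t' s' : Mo S} (h : TIso t s) (h' : TIso t' s') :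
    TIso (t.mul t') (s.mul s') := (h.mul_right t').trans (h'.mul s)

/-- another split -/
noncomputable def yIso (X : 𝒱.Obj) (n : ℕ) : (pw X (n + 1)).prod (pw X (n + 1)) ≅
    (pw X n).prod (pw X (n + 2)) :=
  pwAdd X (n + 1) (n + 1) ≪≫ eqToIso (congrArg (pw X) (show n + 1 + (n + 1) + 1 = n + (n + 2) + 1
    by omega)) ≪≫ (pwAdd X n (n + 2)).symm

lemma cc_convex (n : ℕ) (y : Mo S) : cc X (n + 1) (y.dual.mul y) ^ 2 ≤
    cc X (n + 2) (y.dual.mul y) * cc X n (y.dual.mul y) := by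
  have h := cs2 y.mem y.idem y.dual_adj (pw X (n + 2)) (pw X n)
  have h1 : S.r (y.P.prod y.P) (extOp W y.dual.g y.g) ((pw X n).prod (pw X (n + 2))) =
      S.r (y.P.prod y.P) (extOp W y.dual.g y.g) ((pw X (n + 1)).prod (pw X (n + 1))) :=
    (S.r_iso _ (yIso X n)).symm
  rw [h1] at h
  exact h

lemma cc_shift (n : ℕ) {t : Mo S} {j : ℕ} (θ : t.P ≅ pw X (2 * j + 1)) (s : Mo S) :
    cc X n (t.top.mul s) = cc X (n + (j + 1)) s := by
  rw [cc_iso n (VIso.comm t.top s).tiso]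
  have h1 : cc X n (s.mul t.top) = S.r s.P s.g (t.P.prod ((pw X n).prod (pw X n))) :=
    S.r_assoc s.g
  rw [h1]
  exact S.r_iso s.g (prodCongr θ (Iso.refl _) ≪≫
    pwIso X (m := 2 * j + 1) (l := n) (n := n + (j + 1)) (by ring))

lemma cc_nop (n : ℕ) {y : Mo S} (h : y.g ∈ S.NOp y.P y.P) : cc X n (y.dual.mul y) = 0 :=
  rk_nop (nop_ext h y.dual.mem _)

lemma nop_or (y : Mo S) : y.g ∈ S.NOp y.P y.P ∨ 1 ≤ (y.dual.mul y).rho := by
  rcases Nat.eq_zero_or_pos (y.dual.mul y).rho with h | h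
  · exact Or.inl (nop_of_rk y.mem y.idem y.dual_adj h)
  · exact Or.inr h

end Mo

end Pool.Agent.V7H5.PF
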