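import Pool.Agent.V7H5.AJ.Tame

/-!
# Idempotent operators on the cohomology of varieties
-/

open CategoryTheory AlgebraicGeometry

universe u v

namespace Pool.Agent.V7H5.PF

open Module
open Pool.Agent.H914 Pool.Agent.H914.VarClass Pool.Agent.H914.VarClass.Obj
  Pool.Agent.H914.WeilCohomology Pool.Agent.Y133.Half

variable {k : Type u} [Field k] {𝒱 : VarClass k} {ops : CycleOps 𝒱}
  {W : WeilCohomology.{u, v} ops} {X Y Z P Q R V : 𝒱.Obj} {S : Sys W}

lemma ext_comp (a a' : Module.End W.K (W.H X)) (b b' : Module.End W.K (W.H Y)) :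
    extOp W a b ∘ₗ extOp W a' b' = extOp W (a ∘ₗ a') (b ∘ₗ b') := extOp_mul a a' b b'

/-- An idempotent operator on the cohomology of a variety. -/
structure Mo (S : Sys W) where
  /-- the variety -/
  P : 𝒱.Obj
  /-- the operator -/
  g : Module.End W.K (W.H P)
  mem : g ∈ S.Op P P
  idem : g ∘ₗ g = g

namespace Mo

/-- product -/
noncomputable def mul (s t : Mo S) : Mo S where
  P := s.P.prod t.P
  g := extOp W s.g t.g
  mem := Sys.Op.ext s.mem t.mem
  idem := by rw [ext_comp, s.idem, t.idem]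

/-- the ambient object -/
def top (t : Mo S) : Mo S where
  P := t.P
  g := 1
  mem := Sys.Op.id
  idem := rfl

/-- the complement -/
def cpl (t : Mo S) : Mo S where
  P := t.P
  g := 1 - t.g
  mem := Submodule.sub_mem _ Sys.Op.id t.mem
  idem := by
    have h : t.g * t.g = t.g := t.idem
    change (1 - t.g) * (1 - t.g) = 1 - t.g
    rw [mul_sub, sub_mul, sub_mul, h]
    simp

lemma exists_dual (t : Mo S) : ∃ g' ∈ S.Op t.P t.P, Adj W g' t.g := S.exists_adj' t.mem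

/-- the dual -/
noncomputable def dual (t : Mo S) : Mo S where
  P := t.P
  g := t.exists_dual.choose
  mem := t.exists_dual.choose_spec.1
  idem := t.exists_dual.choose_spec.2.idem t.idem

lemma dual_adj (t : Mo S) : Adj W t.dual.g t.g := t.exists_dual.choose_spec.2

lemma adj_unique {a b g : Module.End W.K (W.H P)} (h1 : Adj W a g) (h2 : Adj W b g) : a = b := by
  apply LinearMap.ext
  intro x
  apply W.tr_ext
  intro y
  rw [h1, h2]

/-- the rank of the intersection form on the classes -/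
noncomputable def rho (t : Mo S) : ℕ := rk (S.F t.P t.g)

lemma rho_mul_top (t s : Mo S) : (t.mul s.top).rho = S.r t.P t.g s.P := rfl

/-- isomorphism -/
def MIso (t s : Mo S) : Prop :=
  ∃ u ∈ S.Op t.P s.P, ∃ v ∈ S.Op s.P t.P, v ∘ₗ u = t.g ∧ u ∘ₗ v = s.g

lemma MIso.refl (t : Mo S) : MIso t t := ⟨t.g, t.mem, t.g, t.mem, t.idem, t.idem⟩

lemma MIso.symm {t s : Mo S} (h : MIso t s) : MIso s t := by
  obtain ⟨u, hu, v, hv, h1, h2⟩ := h
  exact ⟨v, hv, u, hu, h2, h1⟩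

lemma MIso.trans {t s r : Mo S} (h : MIso t s) (h' : MIso s r) : MIso t r := by
  obtain ⟨u, hu, v, hv, h1, h2⟩ := h
  obtain ⟨u', hu', v', hv', h1', h2'⟩ := h'
  refine ⟨u' ∘ₗ u, Sys.Op.comp hu' hu, v ∘ₗ v', Sys.Op.comp hv hv', ?_, ?_⟩
  · calc (v ∘ₗ v') ∘ₗ (u' ∘ₗ u) = v ∘ₗ (v' ∘ₗ u') ∘ₗ u := by simp only [LinearMap.comp_assoc]
      _ = v ∘ₗ (u ∘ₗ v) ∘ₗ u := by rw [h1', h2]
      _ = (v ∘ₗ u) ∘ₗ (v ∘ₗ u) := by simp only [LinearMap.comp_assoc]
      _ = t.g := by rw [h1, t.idem]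
  · calc (u' ∘ₗ u) ∘ₗ (v ∘ₗ v') = u' ∘ₗ (u ∘ₗ v) ∘ₗ v' := by simp only [LinearMap.comp_assoc]
      _ = u' ∘ₗ (v' ∘ₗ u') ∘ₗ v' := by rw [h1', h2]
      _ = (u' ∘ₗ v') ∘ₗ (u' ∘ₗ v') := by simp only [LinearMap.comp_assoc]
      _ = r.g := by rw [h2', r.idem]

lemma MIso.rho_le {t s : Mo S} (h : MIso t s) : t.rho ≤ s.rho := by
  obtain ⟨u, hu, v, hv, h1, h2⟩ := h
  obtain ⟨v', hv', hadj⟩ := Sys.Op.exists_adj hv
  let uS : S.C t.P →ₗ[W.K] S.C s.P := u.restrict fun _ hc => Sys.Op.apply (fun _ => le_rfl) hu hc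
  let vS : S.C t.P →ₗ[W.K] S.C s.P := v'.restrict fun _ hc => Sys.Op.apply (fun _ => le_rfl) hv' hc
  have e : S.F t.P t.g = (S.F s.P s.g).compl₁₂ uS vS := by
    apply LinearMap.ext
    intro c
    apply LinearMap.ext
    intro d
    rw [LinearMap.compl₁₂_apply, Sys.F_apply, Sys.F_apply]
    change W.tr t.P (t.g (c : W.H t.P) * (d : W.H t.P)) =
      W.tr s.P (s.g (u (c : W.H t.P)) * v' (d : W.H t.P))
    rw [← hadj]
    have h3 : v ∘ₗ s.g ∘ₗ u = t.g := by
      rw [← h2]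
      calc v ∘ₗ (u ∘ₗ v) ∘ₗ u = (v ∘ₗ u) ∘ₗ (v ∘ₗ u) := by simp only [LinearMap.comp_assoc]
        _ = t.g := by rw [h1, t.idem]
    have h4 := congrArg (fun f : Module.End W.K (W.H t.P) => f (c : W.H t.P)) h3
    simp only [LinearMap.comp_apply] at h4
    rw [h4]
  rw [rho, e]
  exact rk_comp_le _ _ _

lemma MIso.rho_eq {t s : Mo S} (h : MIso t s) : t.rho = s.rho :=
  le_antisymm h.rho_le h.symm.rho_le

/-- isomorphism of varieties -/
def VIso (t s : Mo S) : Prop :=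
  ∃ θ : t.P ≅ s.P, ∀ x, t.g (W.map θ.hom x) = W.map θ.hom (s.g x)

lemma VIso.miso {t s : Mo S} (h : VIso t s) : MIso t s := by
  obtain ⟨θ, h⟩ := h
  have hinv : ∀ x : W.H t.P, W.map θ.hom (W.map θ.inv x) = x := by
    intro x
    rw [← W.map_comp, θ.hom_inv_id, W.map_id]
  have hinv' : ∀ x : W.H s.P, W.map θ.inv (W.map θ.hom x) = x := by
    intro x
    rw [← W.map_comp, θ.inv_hom_id, W.map_id]
  refine ⟨(W.map θ.inv).toLinearMap ∘ₗ t.g, Sys.Op.comp (Sys.Op.map _) t.mem,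
    (W.map θ.hom).toLinearMap ∘ₗ s.g, Sys.Op.comp (Sys.Op.map _) s.mem, ?_, ?_⟩
  · apply LinearMap.ext
    intro x
    simp only [LinearMap.comp_apply, AlgHom.toLinearMap_apply]
    rw [← h, hinv]
    exact congrArg (fun f : Module.End W.K (W.H t.P) => f x) t.idem
  · apply LinearMap.ext
    intro x
    simp only [LinearMap.comp_apply, AlgHom.toLinearMap_apply]
    rw [h, hinv']
    exact congrArg (fun f : Module.End W.K (W.H s.P) => f x) s.idem

lemma prodCongr_xp {X' Y' : 𝒱.Obj} (α : X ≅ X') (β : Y ≅ Y') (x : W.H X') (y : W.H Y') :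
    W.map (prodCongr α β).hom (xp W x y) = xp W (W.map α.hom x) (W.map β.hom y) := by
  have e1 : (prodCongr α β).hom ≫ fst _ _ = fst _ _ ≫ α.hom := Obj.lift_fst _ _
  have e2 : (prodCongr α β).hom ≫ snd _ _ = snd _ _ ≫ β.hom := Obj.lift_snd _ _
  rw [map_xp, e1, e2, W.map_comp, W.map_comp, xp_def]

lemma VIso.mul {t s t' s' : Mo S} (h : VIso t s) (h' : VIso t' s') :
    VIso (t.mul t') (s.mul s') := by
  obtain ⟨θ, h⟩ := h
  obtain ⟨θ', h'⟩ := h'
  refine ⟨prodCongr θ θ', fun x => ?_⟩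
  have e : extOp W t.g t'.g ∘ₗ (W.map (prodCongr θ θ').hom).toLinearMap =
      (W.map (prodCongr θ θ').hom).toLinearMap ∘ₗ extOp W s.g s'.g := by
    apply xp_ext
    intro i j a _ b _
    simp only [LinearMap.comp_apply, AlgHom.toLinearMap_apply]
    rw [prodCongr_xp, extOp_xp, extOp_xp, prodCongr_xp, h, h']
  exact congrArg (fun f => f x) e

lemma VIso.refl (t : Mo S) : VIso t t := ⟨Iso.refl _, fun x => by
  change t.g (W.map (𝟙 _) x) = W.map (𝟙 _) (t.g x)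
  rw [W.map_id, W.map_id]⟩

lemma VIso.comm (s t : Mo S) : VIso (s.mul t) (t.mul s) := by
  refine ⟨prodComm s.P t.P, fun x => ?_⟩
  have key : ∀ (i j : ℕ) (a : W.H t.P) (b : W.H s.P), a ∈ PH W t.P i → b ∈ PH W s.P j →
      W.map (prodComm s.P t.P).hom (xp W a b) = (-1 : W.K) ^ (i * j) • xp W b a := by
    intro i j a b ha hb
    have e1 : (prodComm s.P t.P).hom ≫ fst _ _ = snd _ _ := Obj.lift_fst _ _
    have e2 : (prodComm s.P t.P).hom ≫ snd _ _ = fst _ _ := Obj.lift_snd _ _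
    rw [map_xp, e1, e2, PH.comm (PH.map _ ha) (PH.map _ hb), xp_def]
  have e : extOp W s.g t.g ∘ₗ (W.map (prodComm s.P t.P).hom).toLinearMap =
      (W.map (prodComm s.P t.P).hom).toLinearMap ∘ₗ extOp W t.g s.g := by
    apply xp_ext
    intro i j a ha b hb
    simp only [LinearMap.comp_apply, AlgHom.toLinearMap_apply]
    rw [key i j a b ha hb, extOp_xp, key i j _ _ (Sys.Op.ev t.mem _ _ ha)
      (Sys.Op.ev s.mem _ _ hb), map_smul, extOp_xp]
  exact congrArg (fun f => f x) e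

lemma VIso.assoc (s t r : Mo S) : VIso ((s.mul t).mul r) (s.mul (t.mul r)) := by
  refine ⟨θ₃ s.P t.P r.P, fun x => ?_⟩
  have e : extOp W (extOp W s.g t.g) r.g ∘ₗ (W.map (θ₃ s.P t.P r.P).hom).toLinearMap =
      (W.map (θ₃ s.P t.P r.P).hom).toLinearMap ∘ₗ extOp W s.g (extOp W t.g r.g) := by
    apply xpL_ext
    intro i j l p _ a _ b _
    simp only [LinearMap.comp_apply, AlgHom.toLinearMap_apply]
    rw [θ₃_xp, extOp_xp, extOp_xp, extOp_xp, extOp_xp, θ₃_xp]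
  exact congrArg (fun f => f x) e

/-- isomorphism after products -/
def TIso (t s : Mo S) : Prop := MIso t s ∧ ∀ y : Mo S, MIso (y.mul t) (y.mul s)

lemma TIso.symm {t s : Mo S} (h : TIso t s) : TIso s t := ⟨h.1.symm, fun y => (h.2 y).symm⟩

lemma TIso.trans {t s r : Mo S} (h : TIso t s) (h' : TIso s r) : TIso t r :=
  ⟨h.1.trans h'.1, fun y => (h.2 y).trans (h'.2 y)⟩

lemma VIso.tiso {t s : Mo S} (h : VIso t s) : TIso t s :=
  ⟨h.miso, fun y => ((VIso.refl y).mul h).miso⟩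

lemma TIso.mul {t s : Mo S} (y : Mo S) (h : TIso t s) : TIso (y.mul t) (y.mul s) :=
  ⟨h.2 y, fun z => ((VIso.assoc z y t).miso.symm.trans (h.2 (z.mul y))).trans
    (VIso.assoc z y s).miso⟩

lemma TIso.mul_right {t s : Mo S} (y : Mo S) (h : TIso t s) : TIso (t.mul y) (s.mul y) :=
  ((VIso.comm t y).tiso.trans (h.mul y)).trans (VIso.comm y s).tiso

end Mo

end Pool.Agent.V7H5.PF
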