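import Pool.Agent.V7H5.PF.Inv
import Pool.Agent.V7H5.PF.Abs2

/-!
# The Perron-Frobenius character of the numerical motives of the powers of a variety
-/

open CategoryTheory AlgebraicGeometry

universe u v

namespace Pool.Agent.V7H5.PF

open Module Filter Topology
open Pool.Agent.H914 Pool.Agent.H914.VarClass Pool.Agent.H914.VarClass.Obj
  Pool.Agent.H914.WeilCohomology Pool.Agent.Y133.Half
open Mo

variable {k : Type u} [Field k] {𝒱 : VarClass k} {ops : CycleOps 𝒱}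
  {W : WeilCohomology.{u, v} ops} {X Y Y' Z P Q R V : 𝒱.Obj} {S : Sys W}

/-- Idempotent operators on even powers. -/
structure Pr (S : Sys W) (X : 𝒱.Obj) extends Mo S where
  /-- half of the number of factors, minus one -/
  k : ℕ
  iso : Nonempty (P ≅ pw X (2 * k + 1))

/-- the data -/
noncomputable def dat (S : Sys W) {X : 𝒱.Obj} {l : W.H (pw X 1)} (hl : l ∈ S.C (pw X 1))
    (hl1 : W.tr (pw X 1) (l * 1) = 1) : Dat (Pr S X) where
  mul s t :=
    { s.toMo.mul t.toMo with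
      k := s.k + t.k + 1
      iso := by
        obtain ⟨θ⟩ := s.iso
        obtain ⟨θ'⟩ := t.iso
        exact ⟨prodCongr θ θ' ≪≫ pwAdd X (2 * s.k + 1) (2 * t.k + 1) ≪≫ eqToIso (congrArg (pw X)
          (show 2 * s.k + 1 + (2 * t.k + 1) + 1 = 2 * (s.k + t.k + 1) + 1 by ring))⟩ }
  top t := { t.toMo.top with k := t.k, iso := t.iso }
  cpl t := { t.toMo.cpl with k := t.k, iso := t.iso }
  dual t := { t.toMo.dual with k := t.k, iso := t.iso }
  one := { un (S.one _) hl hl1 with k := 0, iso := ⟨Iso.refl _⟩ }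
  base := { un (S.one _) hl hl1 with k := 0, iso := ⟨Iso.refl _⟩ }
  dg t := t.k + 1
  Iso t s := TIso t.toMo s.toMo
  Sum t a b := SumR t.toMo a.toMo b.toMo
  c n t := cc X n t.toMo
  Triv t := t.g ∈ S.NOp t.P t.P

section

variable {l : W.H (pw X 1)} {hl : l ∈ S.C (pw X 1)} {hl1 : W.tr (pw X 1) (l * 1) = 1}

lemma copies_aux {ψ : Pr S X → ℝ} (hψ : Cone (dat S hl hl1) ψ) (r : ℕ) :
    ∀ t : Pr S X, r ≤ t.toMo.rho → r * ψ (dat S hl hl1).one ≤ ψ t := by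
  induction r with
  | zero =>
    intro t _
    rw [Nat.cast_zero, zero_mul]
    exact hψ.nonneg t
  | succ r ih =>
    intro t ht
    obtain ⟨c, hc, d, hd, h, -, h1, h2⟩ := exists_unit t.mem t.idem
      (show 0 < rk (S.F t.P t.g) from lt_of_lt_of_le (Nat.succ_pos r) ht)
    have hgg : t.g * t.g = t.g := t.idem
    have h1' : t.g * (uo d c : Module.End W.K (W.H t.P)) = uo d c := h1
    have h2' : (uo d c : Module.End W.K (W.H t.P)) * t.g = uo d c := h2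
    have h3 : (uo d c : Module.End W.K (W.H t.P)) * uo d c = uo d c :=
      uo_comp (S.even hc) (S.even hc) h
    let e : Pr S X := { un hc hd h with k := t.k, iso := t.iso }
    let f : Pr S X :=
      { P := t.P
        g := t.g - uo d c
        mem := Submodule.sub_mem _ t.mem (uo_mem hd hc)
        idem := by
          change (t.g - uo d c) * (t.g - uo d c) = t.g - uo d c
          rw [sub_mul, mul_sub, mul_sub, hgg, h1', h2', h3, sub_self, sub_zero]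
        k := t.k
        iso := t.iso }
    have hs : SumR t.toMo e.toMo f.toMo := by
      refine SumR.mk _ t.g _ _ t.mem _ _ t.idem _ _ ?_ ?_ ?_
      · change t.g = uo d c + (t.g - uo d c)
        abel
      · change (uo d c : Module.End W.K (W.H t.P)) * (t.g - uo d c) = 0
        rw [mul_sub, h2', h3, sub_self]
      · change (t.g - uo d c) * (uo d c : Module.End W.K (W.H t.P)) = 0
        rw [sub_mul, h1', h3, sub_self]
    have e1 : ψ t = ψ e + ψ f := hψ.sum t e f hs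
    have e2 : ψ e = ψ (dat S hl hl1).one := hψ.iso _ _
      (un_un (hc := hc) (hd := hd) (h := h) (hc' := S.one _) (hd' := hl) (h' := hl1))
    have e3 : t.toMo.rho = e.toMo.rho + f.toMo.rho := hs.rho_eq
    have e4 : e.toMo.rho ≤ 1 := rho_un_le (hc := hc) (hd := hd) (h := h)
    have e5 := ih f (by omega)
    rw [e1, e2]
    push_cast
    linarith

/-- A class of trace one on the ambient variety. -/
lemma exists_tr {lX : W.H X} (hl : lX ∈ S.C X) (hl1 : W.tr X lX = 1) {n : ℕ} (θ : P ≅ pw X n) :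
    ∃ m ∈ S.C P, W.tr P m = 1 := by
  obtain ⟨m, hm, hm1⟩ := S.exists_lam hl hl1 n
  refine ⟨W.push θ.inv m, S.push _ hm, ?_⟩
  have h := W.tr_push θ.inv m 1
  rw [mul_one, map_one, mul_one] at h
  rw [h, hm1]

lemma pol_aux {m : W.H P} {g : Module.End W.K (W.H P)} (hg : g ∈ S.Op P P) (hgg : g ∘ₗ g = g)
    (hm : m ∈ S.C P) (hm1 : W.tr P m = 1) {Q : 𝒱.Obj} (hQ : 2 ≤ S.a Q) :
    ∃ G : Module.End W.K (W.H (P.prod Q)), ∃ (hG : G ∈ S.Op (P.prod Q) (P.prod Q))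
      (hGG : G ∘ₗ G = G), ∀ n, cc X n ((⟨P.prod Q, G, hG, hGG⟩ : Mo S).dual.mul
        ⟨P.prod Q, G, hG, hGG⟩) = S.al X n + 2 * cc X n (⟨P, g, hg, hgg⟩ : Mo S) +
          cc X n ((⟨P, g, hg, hgg⟩ : Mo S).dual.mul ⟨P, g, hg, hgg⟩) := by
  -- two orthogonal units on `Q`
  obtain ⟨c₁, hc₁, d₁, hd₁, h₁, h₁', -, -⟩ := exists_unit (S := S) (P := Q) (g := 1) Sys.Op.id rfl
    (lt_of_lt_of_le two_pos hQ)
  set e₁ : Module.End W.K (W.H Q) := uo d₁ c₁ with he₁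
  have he₁m : e₁ ∈ S.Op Q Q := uo_mem hd₁ hc₁
  have he₁i : e₁ * e₁ = e₁ := uo_comp (S.even hc₁) (S.even hc₁) h₁
  have hf : (1 - e₁) ∘ₗ (1 - e₁) = 1 - e₁ := by
    change (1 - e₁) * (1 - e₁) = 1 - e₁
    rw [mul_sub, sub_mul, sub_mul, he₁i]
    simp
  have hfm : 1 - e₁ ∈ S.Op Q Q := Submodule.sub_mem _ Sys.Op.id he₁m
  have hs : SumR (⟨Q, 1, Sys.Op.id, rfl⟩ : Mo S) ⟨Q, e₁, he₁m, he₁i⟩ ⟨Q, 1 - e₁, hfm, hf⟩ :=
    SumR.cpl ⟨Q, e₁, he₁m, he₁i⟩
  have hr := hs.rho_eq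
  have hr1 : (⟨Q, e₁, he₁m, he₁i⟩ : Mo S).rho ≤ 1 := rho_un_le (hc := hc₁) (hd := hd₁) (h := h₁)
  have hr2 : (⟨Q, 1, Sys.Op.id, rfl⟩ : Mo S).rho = S.a Q := rfl
  have hr3 : 0 < (⟨Q, 1 - e₁, hfm, hf⟩ : Mo S).rho := by omega
  obtain ⟨c₂, hc₂, d₂, hd₂, h₂, h₂', h3, h4⟩ := exists_unit hfm hf hr3
  set e₂ : Module.End W.K (W.H Q) := uo d₂ c₂ with he₂
  have he₂m : e₂ ∈ S.Op Q Q := uo_mem hd₂ hc₂
  have he₂i : e₂ ∘ₗ e₂ = e₂ := uo_comp (S.even hc₂) (S.even hc₂) h₂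
  have h12 : e₁ ∘ₗ e₂ = 0 := by
    have h5 : (1 - e₁) * e₂ = e₂ := h3
    rw [sub_mul, one_mul, sub_eq_self] at h5
    exact h5
  have h21 : e₂ ∘ₗ e₁ = 0 := by
    have h5 : e₂ * (1 - e₁) = e₂ := h4
    rw [mul_sub, mul_one, sub_eq_self] at h5
    exact h5
  -- a unit on `P`
  have hE1 : W.tr P (m * 1) = 1 := by rw [mul_one, hm1]
  have hE2 : W.tr P (1 * m) = 1 := by rw [one_mul, hm1]
  set s : Mo S := ⟨P, g, hg, hgg⟩ with hsdef
  set E : Mo S := un (S.one P) hm hE1 with hE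
  set E' : Mo S := un hm (S.one P) hE2 with hE'
  set U₁ : Mo S := un hc₁ hd₁ h₁ with hU₁
  set U₂ : Mo S := un hc₂ hd₂ h₂ with hU₂
  set U₁' : Mo S := un hd₁ hc₁ h₁' with hU₁'
  set U₂' : Mo S := un hd₂ hc₂ h₂' with hU₂'
  -- the object
  let G : Module.End W.K (W.H (P.prod Q)) := extOp W g e₁ + extOp W (uo m 1) e₂
  have a1 : extOp W g e₁ ∘ₗ extOp W g e₁ = extOp W g e₁ := by
    rw [ext_comp, hgg]
    congr 1
  have a2 : extOp W (uo m 1 : Module.End W.K (W.H P)) e₂ ∘ₗ extOp W (uo m 1) e₂ =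
      extOp W (uo m 1) e₂ := by
    rw [ext_comp, he₂i, uo_comp (S.even (S.one P)) (S.even (S.one P)) hE1]
  have a3 : extOp W g e₁ ∘ₗ extOp W (uo m 1 : Module.End W.K (W.H P)) e₂ = 0 := by
    rw [ext_comp, h12, extOp_zero_right]
  have a4 : extOp W (uo m 1 : Module.End W.K (W.H P)) e₂ ∘ₗ extOp W g e₁ = 0 := by
    rw [ext_comp, h21, extOp_zero_right]
  have hG : G ∈ S.Op (P.prod Q) (P.prod Q) :=
    Submodule.add_mem _ (Sys.Op.ext hg he₁m) (Sys.Op.ext (uo_mem hm (S.one P)) he₂m)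
  have hGG : G ∘ₗ G = G := by
    change (extOp W g e₁ + extOp W (uo m 1) e₂) ∘ₗ (extOp W g e₁ + extOp W (uo m 1) e₂) = _
    rw [LinearMap.add_comp, LinearMap.comp_add, LinearMap.comp_add, a1, a2, a3, a4, add_zero,
      zero_add]
  refine ⟨G, hG, hGG, fun n => ?_⟩
  set y : Mo S := ⟨P.prod Q, G, hG, hGG⟩ with hy
  have s1 : SumR y (s.mul U₁) (E.mul U₂) :=
    SumR.mk (P.prod Q) G (extOp W g e₁) (extOp W (uo m 1) e₂) hG (s.mul U₁).mem (E.mul U₂).mem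
      hGG (s.mul U₁).idem (E.mul U₂).idem rfl a3 a4
  -- the dual
  have k1 : Adj W (uo c₁ d₁ : Module.End W.K (W.H Q)) e₁ := uo_adj (S.even hc₁) (S.even hd₁)
  have k2 : Adj W (uo c₂ d₂ : Module.End W.K (W.H Q)) e₂ := uo_adj (S.even hc₂) (S.even hd₂)
  have k3 : Adj W (uo 1 m : Module.End W.K (W.H P)) (uo m 1) :=
    uo_adj (S.even (S.one P)) (S.even hm)
  let g' : Module.End W.K (W.H P) := s.dual.g
  have k4 : Adj W g' g := s.dual_adj
  have k5 : Adj W (extOp W g' (uo c₁ d₁)) (extOp W g e₁) :=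
    k4.extOp k1 (Sys.Op.ev hg) (Sys.Op.ev (uo_mem hc₁ hd₁ : _ ∈ S.Op Q Q))
  have k6 : Adj W (extOp W (uo 1 m) (uo c₂ d₂)) (extOp W (uo m 1) e₂) :=
    k3.extOp k2 (Sys.Op.ev (uo_mem hm (S.one P) : _ ∈ S.Op P P))
      (Sys.Op.ev (uo_mem hc₂ hd₂ : _ ∈ S.Op Q Q))
  have k7 : Adj W (extOp W g' (uo c₁ d₁) + extOp W (uo 1 m) (uo c₂ d₂)) G := by
    intro a b
    change W.tr _ ((extOp W g' (uo c₁ d₁) a + extOp W (uo 1 m) (uo c₂ d₂) a) * b) =
      W.tr _ (a * (extOp W g e₁ b + extOp W (uo m 1) e₂ b))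
    rw [add_mul, map_add, k5, k6, mul_add, map_add]
  have k8 : y.dual.g = extOp W g' (uo c₁ d₁) + extOp W (uo 1 m) (uo c₂ d₂) :=
    adj_unique y.dual_adj k7
  have b1 : (uo c₁ d₁ : Module.End W.K (W.H Q)) ∘ₗ uo c₂ d₂ = 0 := by
    apply LinearMap.ext
    intro x
    apply W.tr_ext
    intro z
    rw [LinearMap.comp_apply, k1, k2]
    have h5 : e₂ (e₁ z) = 0 := congrArg (fun f : Module.End W.K (W.H Q) => f z) h21
    rw [h5, mul_zero, LinearMap.zero_apply, zero_mul]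
  have b2 : (uo c₂ d₂ : Module.End W.K (W.H Q)) ∘ₗ uo c₁ d₁ = 0 := by
    apply LinearMap.ext
    intro x
    apply W.tr_ext
    intro z
    rw [LinearMap.comp_apply, k2, k1]
    have h5 : e₁ (e₂ z) = 0 := congrArg (fun f : Module.End W.K (W.H Q) => f z) h12
    rw [h5, mul_zero, LinearMap.zero_apply, zero_mul]
  have s2 : SumR y.dual (s.dual.mul U₁') (E'.mul U₂') := by
    refine SumR.mk (P.prod Q) y.dual.g (extOp W g' (uo c₁ d₁)) (extOp W (uo 1 m) (uo c₂ d₂))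
      y.dual.mem (s.dual.mul U₁').mem (E'.mul U₂').mem y.dual.idem (s.dual.mul U₁').idem
      (E'.mul U₂').idem k8 ?_ ?_
    · rw [ext_comp, b1, extOp_zero_right]
    · rw [ext_comp, b2, extOp_zero_right]
  -- isomorphisms
  have i1 : TIso (s.mul U₁) s := mul_un s
  have i2 : TIso (E.mul U₂) E := mul_un E
  have i3 : TIso (s.dual.mul U₁') s.dual := mul_un s.dual
  have i4 : TIso (E'.mul U₂') E' := mul_un E'
  rw [cc_sum n (s1.mul y.dual), cc_sum n (s2.mul_right (s.mul U₁)),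
    cc_sum n (s2.mul_right (E.mul U₂)), cc_iso n (i3.mul2 i1), cc_iso n (i4.mul2 i1),
    cc_iso n (i3.mul2 i2), cc_iso n (i4.mul2 i2), cc_iso n (un_mul s), cc_iso n (mul_un s.dual),
    cc_iso n (mul_un E'), cc_dual, hE', cc_un]
  ring

end

end Pool.Agent.V7H5.PF
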