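import Pool.Agent.V7H5.PF.Mo

/-!
# Unit objects, sums
-/

open CategoryTheory AlgebraicGeometry

universe u v

namespace Pool.Agent.V7H5.PF

open Module
open Pool.Agent.H914 Pool.Agent.H914.VarClass Pool.Agent.H914.VarClass.Obj
  Pool.Agent.H914.WeilCohomology Pool.Agent.Y133.Half

variable {k : Type u} [Field k] {𝒱 : VarClass k} {ops : CycleOps 𝒱}
  {W : WeilCohomology.{u, v} ops} {X Y Z P Q R V : 𝒱.Obj} {S : Sys W}

/-- Push-forwards are operators of the system. -/
lemma op_push (f : X ⟶ Y) : (W.push f : W.H X →ₗ[W.K] W.H Y) ∈ S.Op X Y := by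
  have h : W.corr (W.push (Obj.lift (𝟙 X) f) (1 : W.H X)) = W.push f := by
    apply LinearMap.ext
    intro a
    rw [corr_apply, ← W.push_mul, one_mul, ← W.map_comp, ← W.push_comp,
      Obj.lift_fst, Obj.lift_snd, W.map_id]
  rw [← h]
  exact Sys.Op.corr (S.push _ (S.one X))

lemma op_mul {c : W.H X} (hc : c ∈ S.C X) : LinearMap.mulLeft W.K c ∈ S.Op X X := by
  have h : W.corr (W.push (diag X) c) = LinearMap.mulLeft W.K c := by
    apply LinearMap.ext
    intro a
    rw [W.corr_diag]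
    rfl
  rw [← h]
  exact Sys.Op.corr (S.push _ hc)

lemma push_fst_all (a : W.H X) {j : ℕ} {b : W.H Y} (hb : b ∈ PH W Y j) :
    W.push (fst X Y) (xp W a b) = W.tr Y b • a := by
  rcases Nat.mod_two_eq_zero_or_one j with hj | hj
  · exact push_fst a b (PH.congr (by omega) hb)
  · rw [PH.tr_odd hb hj, zero_smul]
    apply W.tr_ext
    intro c
    rw [W.tr_push, zero_mul, map_zero]
    refine gr_induction (W.isInternal X) (p := fun c => W.tr _ (xp W a b * W.map (fst X Y) c) = 0)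
      ?_ ?_ c
    · intro i c hc
      rw [xp, mul_assoc, PH.comm (PH.map _ hb) (PH.map _ (PH.of hc)), mul_smul_comm, ← mul_assoc,
        ← map_mul, map_smul, W.tr_prod, PH.tr_odd hb hj, mul_zero, smul_zero]
    · intro c d hc hd
      rw [map_add, mul_add, map_add, hc, hd, add_zero]

/-- an operator of rank one -/
noncomputable def uo (d : W.H P) (c : W.H Q) : W.H P →ₗ[W.K] W.H Q := W.corr (xp W d c)

lemma uo_mem {d : W.H P} {c : W.H Q} (hd : d ∈ S.C P) (hc : c ∈ S.C Q) : uo d c ∈ S.Op P Q :=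
  Sys.Op.corr (Sys.xp_mem_C S hd hc)

lemma uo_apply (d : W.H P) {c : W.H Q} (hc : c ∈ PH W Q 0) (z : W.H P) :
    uo d c z = W.tr P (d * z) • c := by
  rw [uo, corr_apply, xp, mul_assoc, PH.even_comm (PH.map _ hc), ← mul_assoc, ← map_mul, push_snd]

lemma uo_comp {d : W.H P} {c d' : W.H Q} {c' : W.H R} (hc : c ∈ PH W Q 0) (hc' : c' ∈ PH W R 0)
    (h : W.tr Q (d' * c) = 1) : uo d' c' ∘ₗ uo d c = uo d c' := by
  apply LinearMap.ext
  intro z
  rw [LinearMap.comp_apply, uo_apply d hc, map_smul, uo_apply d' hc', uo_apply d hc', h, one_smul]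

lemma uo_adj {c d : W.H Q} (hc : c ∈ PH W Q 0) (hd : d ∈ PH W Q 0) :
    Adj W (uo c d : Module.End W.K (W.H Q)) (uo d c) := by
  intro a b
  rw [uo_apply c hd, uo_apply d hc, smul_mul_assoc, mul_smul_comm, map_smul, map_smul, smul_eq_mul,
    smul_eq_mul, PH.even_comm hc a, mul_comm]

lemma uo_rank {c : W.H Q} (d : W.H P) (hc : c ∈ PH W Q 0) :
    finrank W.K (LinearMap.range (uo d c)) ≤ 1 := by
  have h1 : LinearMap.range (uo d c) ≤ Submodule.span W.K {c} := by
    rintro _ ⟨z, rfl⟩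
    rw [uo_apply d hc]
    exact Submodule.smul_mem _ _ (Submodule.mem_span_singleton_self c)
  refine (Submodule.finrank_mono h1).trans ?_
  have h2 := finrank_span_le_card (R := W.K) ({c} : Set (W.H Q))
  simpa using h2

section raw

variable {c d : W.H Q}

/-- insertion -/
noncomputable def ins (g : Module.End W.K (W.H P)) (c : W.H Q) : W.H P →ₗ[W.K] W.H (P.prod Q) :=
  LinearMap.mulLeft W.K (W.map (snd P Q) c) ∘ₗ (W.map (fst P Q)).toLinearMap ∘ₗ g

/-- contraction -/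
noncomputable def con (g : Module.End W.K (W.H P)) (d : W.H Q) : W.H (P.prod Q) →ₗ[W.K] W.H P :=
  g ∘ₗ W.push (fst P Q) ∘ₗ LinearMap.mulLeft W.K (W.map (snd P Q) d)

lemma ins_mem {g : Module.End W.K (W.H P)} (hg : g ∈ S.Op P P) (hc : c ∈ S.C Q) :
    ins g c ∈ S.Op P (P.prod Q) :=
  Sys.Op.comp (op_mul (S.map _ hc)) (Sys.Op.comp (Sys.Op.map _) hg)

lemma con_mem {g : Module.End W.K (W.H P)} (hg : g ∈ S.Op P P) (hd : d ∈ S.C Q) :
    con g d ∈ S.Op (P.prod Q) P :=
  Sys.Op.comp hg (Sys.Op.comp (op_push _) (op_mul (S.map _ hd)))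

lemma ins_apply (g : Module.End W.K (W.H P)) (hc : c ∈ PH W Q 0) (a : W.H P) :
    ins g c a = xp W (g a) c := by
  simp only [ins, LinearMap.comp_apply, AlgHom.toLinearMap_apply, LinearMap.mulLeft_apply]
  rw [PH.even_comm (PH.map _ hc), xp_def]

lemma con_xp (g : Module.End W.K (W.H P)) (hd : d ∈ PH W Q 0) (a : W.H P) {j : ℕ} {b : W.H Q}
    (hb : b ∈ PH W Q j) : con g d (xp W a b) = W.tr Q (d * b) • g a := by
  simp only [con, LinearMap.comp_apply, LinearMap.mulLeft_apply]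
  have e1 : W.map (snd P Q) d * xp W a b = xp W a (d * b) := by
    rw [xp, ← mul_assoc, PH.even_comm (PH.map _ hd), mul_assoc, ← map_mul, xp_def]
  have hdb : d * b ∈ PH W Q (0 + j) := PH.mul hd hb
  rw [e1, push_fst_all a hdb, map_smul]

lemma ins_con {g : Module.End W.K (W.H P)} (hg : g ∘ₗ g = g) (hc : c ∈ PH W Q 0)
    (hd : d ∈ PH W Q 0) : ins g c ∘ₗ con g d = extOp W g (uo d c) := by
  apply xp_ext
  intro i j a ha b hb
  have e2 : g (g a) = g a := congrArg (fun f : Module.End W.K (W.H P) => f a) hg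
  rw [extOp_xp, LinearMap.comp_apply, con_xp g hd a hb, map_smul, ins_apply g hc, e2,
    uo_apply d hc, xp_smul_right]

lemma con_ins {g : Module.End W.K (W.H P)} (hg : g ∘ₗ g = g) (hc : c ∈ PH W Q 0)
    (hd : d ∈ PH W Q 0) (h : W.tr Q (d * c) = 1) : con g d ∘ₗ ins g c = g := by
  apply LinearMap.ext
  intro a
  have e2 : g (g a) = g a := congrArg (fun f : Module.End W.K (W.H P) => f a) hg
  rw [LinearMap.comp_apply, ins_apply g hc, con_xp g hd _ hc, h, one_smul, e2]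

end raw

namespace Mo

/-- a unit object -/
noncomputable def un {Q : 𝒱.Obj} {c d : W.H Q} (hc : c ∈ S.C Q) (hd : d ∈ S.C Q)
    (h : W.tr Q (d * c) = 1) : Mo S where
  P := Q
  g := uo d c
  mem := uo_mem hd hc
  idem := uo_comp (S.even hc) (S.even hc) h

section un

variable {c d : W.H Q} {hc : c ∈ S.C Q} {hd : d ∈ S.C Q} {h : W.tr Q (d * c) = 1}

lemma miso_mul_un (t : Mo S) : MIso (t.mul (un hc hd h)) t :=
  ⟨con t.g d, con_mem t.mem hd, ins t.g c, ins_mem t.mem hc,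
    ins_con t.idem (S.even hc) (S.even hd), con_ins t.idem (S.even hc) (S.even hd) h⟩

lemma mul_un (t : Mo S) : TIso (t.mul (un hc hd h)) t :=
  ⟨miso_mul_un t, fun y => (VIso.assoc y t _).miso.symm.trans (miso_mul_un (y.mul t))⟩

lemma un_mul (t : Mo S) : TIso ((un hc hd h).mul t) t := (VIso.comm _ _).tiso.trans (mul_un t)

lemma un_un {c' d' : W.H R} {hc' : c' ∈ S.C R} {hd' : d' ∈ S.C R} {h' : W.tr R (d' * c') = 1} :
    TIso (un hc hd h) (un hc' hd' h') :=
  ⟨⟨uo d c', uo_mem hd hc', uo d' c, uo_mem hd' hc, uo_comp (S.even hc') (S.even hc) h',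
    uo_comp (S.even hc) (S.even hc') h⟩,
    fun y => (miso_mul_un y).trans (miso_mul_un y).symm⟩

lemma rho_un_le : (un hc hd h).rho ≤ 1 :=
  (S.rk_F_le _).trans (uo_rank d (S.even hc))

end un

/-- direct sums -/
inductive SumR : Mo S → Mo S → Mo S → Prop
  | mk (P : 𝒱.Obj) (G g h : Module.End W.K (W.H P)) (mG : G ∈ S.Op P P) (mg : g ∈ S.Op P P)
      (mh : h ∈ S.Op P P) (iG : G ∘ₗ G = G) (ig : g ∘ₗ g = g) (ih : h ∘ₗ h = h) (hG : G = g + h)
      (h1 : g ∘ₗ h = 0) (h2 : h ∘ₗ g = 0) : SumR ⟨P, G, mG, iG⟩ ⟨P, g, mg, ig⟩ ⟨P, h, mh, ih⟩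

lemma SumR.mul {t a b : Mo S} (y : Mo S) (h : SumR t a b) :
    SumR (y.mul t) (y.mul a) (y.mul b) := by
  obtain ⟨P, G, g, h, mG, mg, mh, iG, ig, ih, hG, h1, h2⟩ := h
  refine SumR.mk _ _ _ _ _ _ _ _ _ _ ?_ ?_ ?_
  · change extOp W y.g G = extOp W y.g g + extOp W y.g h
    rw [hG, extOp_add_right]
  · change extOp W y.g g ∘ₗ extOp W y.g h = 0
    rw [ext_comp, h1, extOp_zero_right]
  · change extOp W y.g h ∘ₗ extOp W y.g g = 0
    rw [ext_comp, h2, extOp_zero_right]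

lemma SumR.mul_right {t a b : Mo S} (y : Mo S) (h : SumR t a b) :
    SumR (t.mul y) (a.mul y) (b.mul y) := by
  obtain ⟨P, G, g, h, mG, mg, mh, iG, ig, ih, hG, h1, h2⟩ := h
  refine SumR.mk _ _ _ _ _ _ _ _ _ _ ?_ ?_ ?_
  · change extOp W G y.g = extOp W g y.g + extOp W h y.g
    rw [hG, extOp_add_left]
  · change extOp W g y.g ∘ₗ extOp W h y.g = 0
    rw [ext_comp, h1, extOp_zero_left]
  · change extOp W h y.g ∘ₗ extOp W g y.g = 0
    rw [ext_comp, h2, extOp_zero_left]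

lemma SumR.cpl (t : Mo S) : SumR t.top t t.cpl := by
  obtain ⟨P, g, mg, ig⟩ := t
  have h : g * g = g := ig
  refine SumR.mk _ _ _ _ _ _ _ _ _ _ ?_ ?_ ?_
  · change (1 : Module.End W.K (W.H P)) = g + (1 - g)
    abel
  · change g * (1 - g) = 0
    rw [mul_sub, h, mul_one, sub_self]
  · change (1 - g) * g = 0
    rw [sub_mul, h, one_mul, sub_self]

lemma SumR.rho_eq {t a b : Mo S} (h : SumR t a b) : t.rho = a.rho + b.rho := by
  obtain ⟨P, G, g, h, mG, mg, mh, iG, ig, ih, hG, h1, h2⟩ := h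
  change rk (S.F P G) = rk (S.F P g) + rk (S.F P h)
  have ap : ∀ {a b c : Module.End W.K (W.H P)}, a ∘ₗ b = c → ∀ x, a (b x) = c x := by
    intro a b c h x
    rw [← h]
    rfl
  have hr1 : LinearMap.range (S.F P G) = LinearMap.range (S.F P g) ⊔ LinearMap.range (S.F P h) := by
    apply le_antisymm
    · rintro _ ⟨c, rfl⟩
      have e : S.F P G c = S.F P g c + S.F P h c := by
        apply LinearMap.ext
        intro d
        rw [LinearMap.add_apply, Sys.F_apply, Sys.F_apply, Sys.F_apply, hG, LinearMap.add_apply,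
          add_mul, map_add]
      rw [e]
      exact Submodule.add_mem_sup ⟨c, rfl⟩ ⟨c, rfl⟩
    · rw [sup_le_iff]
      constructor
      · rintro _ ⟨c, rfl⟩
        refine ⟨⟨g c, Sys.Op.apply (fun _ => le_rfl) mg c.2⟩, ?_⟩
        apply LinearMap.ext
        intro d
        rw [Sys.F_apply, Sys.F_apply]
        change W.tr P (G (g (c : W.H P)) * _) = _
        rw [hG, LinearMap.add_apply, ap ig, ap h2, LinearMap.zero_apply, add_zero]
      · rintro _ ⟨c, rfl⟩
        refine ⟨⟨h c, Sys.Op.apply (fun _ => le_rfl) mh c.2⟩, ?_⟩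
        apply LinearMap.ext
        intro d
        rw [Sys.F_apply, Sys.F_apply]
        change W.tr P (G (h (c : W.H P)) * _) = _
        rw [hG, LinearMap.add_apply, ap ih, ap h1, LinearMap.zero_apply, zero_add]
  have hdis : LinearMap.range (S.F P g) ⊓ LinearMap.range (S.F P h) = ⊥ := by
    rw [eq_bot_iff]
    rintro φ ⟨⟨c, hc⟩, ⟨d, hd⟩⟩
    obtain ⟨g', hg', hadj⟩ := Sys.Op.exists_adj mg
    rw [Submodule.mem_bot]
    apply LinearMap.ext
    intro e
    have e1 : φ ⟨g' e, Sys.Op.apply (fun _ => le_rfl) hg' e.2⟩ = φ e := by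
      rw [← hc, Sys.F_apply, Sys.F_apply]
      change W.tr P (g (c : W.H P) * g' (e : W.H P)) = _
      rw [← hadj, ap ig]
    have e2 : φ ⟨g' e, Sys.Op.apply (fun _ => le_rfl) hg' e.2⟩ = 0 := by
      rw [← hd, Sys.F_apply]
      change W.tr P (h (d : W.H P) * g' (e : W.H P)) = _
      rw [← hadj, ap h1, LinearMap.zero_apply, zero_mul, map_zero]
    rw [← e1, e2]
    rfl
  have h3 := Submodule.finrank_sup_add_finrank_inf_eq (LinearMap.range (S.F P g))
    (LinearMap.range (S.F P h))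
  rw [hdis, finrank_bot, add_zero] at h3
  rw [rk, rk, rk, hr1]
  exact h3

/-- Splitting off a unit object. -/
lemma exists_unit {g : Module.End W.K (W.H P)} (hg : g ∈ S.Op P P) (hgg : g ∘ₗ g = g)
    (ht : 0 < rk (S.F P g)) : ∃ c ∈ S.C P, ∃ d ∈ S.C P, W.tr P (d * c) = 1 ∧
      W.tr P (c * d) = 1 ∧ g ∘ₗ uo d c = uo d c ∧ uo d c ∘ₗ g = uo d c := by
  have h1 : S.F P g ≠ 0 := by
    intro h0
    rw [h0, rk, LinearMap.range_zero, finrank_bot] at ht
    exact lt_irrefl _ ht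
  obtain ⟨c, hc⟩ : ∃ c, S.F P g c ≠ 0 := by
    by_contra hcon
    push Not at hcon
    exact h1 (LinearMap.ext hcon)
  obtain ⟨d, hd⟩ : ∃ d, S.F P g c d ≠ 0 := by
    by_contra hcon
    push Not at hcon
    exact hc (LinearMap.ext hcon)
  rw [Sys.F_apply] at hd
  obtain ⟨g', hg', hadj⟩ := Sys.Op.exists_adj hg
  have ap : ∀ x, g (g x) = g x := fun x =>
    congrArg (fun f : Module.End W.K (W.H P) => f x) hgg
  set s := W.tr P (g (c : W.H P) * (d : W.H P)) with hs
  have hc' : s⁻¹ • g (c : W.H P) ∈ S.C P :=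
    Submodule.smul_mem _ _ (Sys.Op.apply (fun _ => le_rfl) hg c.2)
  have hd' : g' (d : W.H P) ∈ S.C P := Sys.Op.apply (fun _ => le_rfl) hg' d.2
  have h2 : W.tr P (g' (d : W.H P) * (s⁻¹ • g (c : W.H P))) = 1 := by
    rw [PH.even_comm (S.even hd'), smul_mul_assoc, map_smul, ← hadj, ap, ← hs, smul_eq_mul,
      inv_mul_cancel₀ hd]
  refine ⟨_, hc', _, hd', h2, ?_, ?_, ?_⟩
  · rw [PH.even_comm (S.even hc'), h2]
  · apply LinearMap.ext
    intro z
    rw [LinearMap.comp_apply, uo_apply _ (S.even hc'), map_smul, map_smul, ap]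
  · apply LinearMap.ext
    intro z
    rw [LinearMap.comp_apply, uo_apply _ (S.even hc'), uo_apply _ (S.even hc')]
    congr 1
    rw [PH.even_comm (S.even hd'), ← hadj, ap, hadj, PH.even_comm (S.even hd') z]

end Mo

end Pool.Agent.V7H5.PF
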